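import Pool.Agent.H58.AG.Kernel

/-!
# Nonnegative almost eigenvectors of symmetric nonnegative matrices
-/

set_option autoImplicit false

open Finset

namespace Pool.Agent.H58.AG

/-- a symmetric operator has an eigenvalue which is at least the Rayleigh quotient of a vector -/
lemma exists_eigen {E : Type*} [NormedAddCommGroup E] [InnerProductSpace ℝ E]
    [FiniteDimensional ℝ E] {T : E →ₗ[ℝ] E} (hT : T.IsSymmetric) {g : E} (hg : g ≠ 0) {R : ℝ}
    (hR : R * ‖g‖ ^ 2 ≤ inner ℝ (T g) g) :
    ∃ (lam : ℝ) (v : E), R ≤ lam ∧ v ≠ 0 ∧ T v = lam • v := by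
  have : Nontrivial E := ⟨g, 0, hg⟩
  have h1 := hT.hasEigenvalue_iSup_of_finiteDimensional
  obtain ⟨v, hv⟩ := h1.exists_hasEigenvector
  refine ⟨_, v, ?_, hv.2, hv.apply_eq_smul⟩
  have hbdd : BddAbove (Set.range fun x : { x : E // x ≠ 0 } =>
      RCLike.re (inner ℝ (T x) (x : E)) / ‖(x : E)‖ ^ 2) := by
    refine ⟨‖LinearMap.toContinuousLinearMap T‖, ?_⟩
    rintro _ ⟨x, rfl⟩
    have hx : 0 < ‖(x : E)‖ := norm_pos_iff.2 x.2
    have h2 : inner ℝ (T x) (x : E) ≤ ‖T x‖ * ‖(x : E)‖ := real_inner_le_norm _ _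
    have h3 : ‖T x‖ ≤ ‖LinearMap.toContinuousLinearMap T‖ * ‖(x : E)‖ :=
      (LinearMap.toContinuousLinearMap T).le_opNorm x
    simp only [RCLike.re_to_real]
    rw [div_le_iff₀ (by positivity)]
    nlinarith
  have h2 := le_ciSup hbdd ⟨g, hg⟩
  refine le_trans ?_ h2
  have hx : 0 < ‖g‖ := norm_pos_iff.2 hg
  simp only [RCLike.re_to_real]
  rw [le_div_iff₀ (by positivity)]
  exact hR

/-- the matrix form -/
lemma perron_matrix {β : Type*} [Fintype β] {M : Matrix β β ℝ} (h0 : ∀ k l, 0 ≤ M k l)
    (hs : ∀ k l, M k l = M l k) {g : β → ℝ} (hg : g ≠ 0) {R : ℝ} (hR0 : 0 ≤ R)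
    (hR : R * ∑ k, g k ^ 2 ≤ ∑ k, (∑ l, M k l * g l) * g k) :
    ∃ f : β → ℝ, (∀ k, 0 ≤ f k) ∧ f ≠ 0 ∧ ∀ k, R * f k ≤ ∑ l, M k l * f l := by
  classical
  have hM : M.IsHermitian := by
    ext k l
    simp [Matrix.conjTranspose_apply, hs k l]
  have hT := Matrix.isSymmetric_toEuclideanLin_iff.mpr hM
  have hg' : (WithLp.toLp 2 g : EuclideanSpace ℝ β) ≠ 0 := by
    intro h
    apply hg
    have := congrArg (WithLp.ofLp) h
    simpa using this
  have happ : ∀ (w : EuclideanSpace ℝ β) (k : β), Matrix.toEuclideanLin M w k = ∑ l, M k l * w l := by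
    intro w k
    simp [Matrix.toLpLin_apply, Matrix.mulVec, dotProduct]
  obtain ⟨lam, v, hlam, hv, hTv⟩ := exists_eigen hT hg' (R := R) (by
    rw [EuclideanSpace.norm_sq_eq, PiLp.inner_apply]
    simp only [Real.norm_eq_abs, sq_abs, RCLike.inner_apply, conj_trivial]
    refine hR.trans (le_of_eq ?_)
    apply sum_congr rfl
    intro k _
    rw [happ]
    simp only
    ring)
  refine ⟨fun k => |v k|, fun k => abs_nonneg _, ?_, ?_⟩
  · intro h
    apply hv
    ext k
    have := congrFun h k
    simpa using this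
  · intro k
    have h1 : ∑ l, M k l * v l = lam * v k := by
      rw [← happ, hTv]
      simp
    calc R * |v k| ≤ lam * |v k| := mul_le_mul_of_nonneg_right hlam (abs_nonneg _)
      _ = |lam * v k| := by rw [abs_mul, abs_of_nonneg (hR0.trans hlam)]
      _ = |∑ l, M k l * v l| := by rw [h1]
      _ ≤ ∑ l, |M k l * v l| := abs_sum_le_sum_abs _ _
      _ = ∑ l, M k l * |v l| := by
          apply sum_congr rfl
          intro l _
          rw [abs_mul, abs_of_nonneg (h0 k l)]

variable {m : ℕ}

/-- the form which is used for the torus -/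
theorem perron {B : Finset (Fin m → ℤ)} {p : Fin m → ℝ} (hp : ∀ j, 0 ≤ p j)
    {g : (Fin m → ℤ) → ℝ} (hg : ∃ k ∈ B, g k ≠ 0) {R : ℝ} (hR0 : 0 ≤ R)
    (hR : R * ∑ k ∈ B, g k ^ 2 ≤
      ∑ j, p j * ∑ k ∈ B, if k + ev j ∈ B then g k * g (k + ev j) else 0) :
    ∃ f : (Fin m → ℤ) → ℝ, (∀ k, 0 ≤ f k) ∧ (∀ k, k ∉ B → f k = 0) ∧ (∃ k, f k ≠ 0) ∧
      ∀ k ∈ B, R * f k ≤ ∑ j, p j / 2 * (f (k - ev j) + f (k + ev j)) := by
  classical
  set M : Matrix B B ℝ := fun k l => ∑ j, p j / 2 *
    ((if (l : Fin m → ℤ) = k - ev j then 1 else 0) + (if (l : Fin m → ℤ) = k + ev j then 1 else 0))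
    with hM
  -- the action of the matrix
  have hact : ∀ (f : (Fin m → ℤ) → ℝ), (∀ k, k ∉ B → f k = 0) → ∀ k : B,
      ∑ l : B, M k l * f l = ∑ j, p j / 2 * (f (k - ev j) + f (k + ev j)) := by
    intro f hf k
    have h1 : ∀ q : Fin m → ℤ, ∑ l : B, (if (l : Fin m → ℤ) = q then (1 : ℝ) else 0) * f l = f q := by
      intro q
      by_cases hq : q ∈ B
      · rw [sum_eq_single (⟨q, hq⟩ : B)]
        · simp
        · intro b _ hb
          have : (b : Fin m → ℤ) ≠ q := fun h => hb (Subtype.ext h)
          simp [this]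
        · simp
      · rw [hf q hq]
        apply sum_eq_zero
        intro l _
        have : (l : Fin m → ℤ) ≠ q := fun h => hq (h ▸ l.2)
        simp [this]
    simp only [hM]
    simp_rw [sum_mul]
    rw [sum_comm]
    apply sum_congr rfl
    intro j _
    rw [← h1 (k - ev j), ← h1 (k + ev j), ← sum_add_distrib, mul_sum]
    apply sum_congr rfl
    intro l _
    ring
  obtain ⟨k0, hk0, hgk0⟩ := hg
  -- the test function
  set gB : (Fin m → ℤ) → ℝ := fun k => if k ∈ B then g k else 0 with hgB
  have hgB0 : ∀ k, k ∉ B → gB k = 0 := fun k hk => by simp [hgB, hk]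
  obtain ⟨f, hf0, hfne, hf⟩ := perron_matrix (M := M) (g := fun k : B => gB k) (R := R) (by
      intro k l
      simp only [hM]
      apply sum_nonneg
      intro j _
      have := hp j
      split_ifs <;> linarith) (by
      intro k l
      simp only [hM]
      apply sum_congr rfl
      intro j _
      have e1 : ((l : Fin m → ℤ) = k - ev j) ↔ ((k : Fin m → ℤ) = l + ev j) := by
        constructor
        · intro h
          rw [h]
          abel
        · intro h
          rw [h]
          abel
      have e2 : ((l : Fin m → ℤ) = k + ev j) ↔ ((k : Fin m → ℤ) = l - ev j) := by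
        constructor
        · intro h
          rw [h]
          abel
        · intro h
          rw [h]
          abel
      simp only [e1, e2]
      ring) (by
      intro h
      have := congrFun h ⟨k0, hk0⟩
      simp only [hgB, hk0, if_true, Pi.zero_apply] at this
      exact hgk0 this) hR0 (by
      simp_rw [hact gB hgB0]
      have e1 : ∑ k : B, gB k ^ 2 = ∑ k ∈ B, g k ^ 2 := by
        rw [← sum_coe_sort B (fun k => g k ^ 2)]
        apply sum_congr rfl
        intro k _
        simp [hgB, k.2]
      rw [e1]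
      refine hR.trans (le_of_eq ?_)
      have e2 : ∑ k : B, (∑ j, p j / 2 * (gB (k - ev j) + gB (k + ev j))) * gB k =
          ∑ j, p j / 2 * (∑ k ∈ B, gB (k - ev j) * gB k + ∑ k ∈ B, gB (k + ev j) * gB k) := by
        rw [sum_coe_sort B (fun k => (∑ j, p j / 2 * (gB (k - ev j) + gB (k + ev j))) * gB k)]
        simp_rw [sum_mul]
        rw [sum_comm]
        apply sum_congr rfl
        intro j _
        rw [← sum_add_distrib, mul_sum]
        apply sum_congr rfl
        intro k _
        ring
      rw [e2]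
      apply sum_congr rfl
      intro j _
      have e3 : ∑ k ∈ B, gB (k + ev j) * gB k =
          ∑ k ∈ B, if k + ev j ∈ B then g k * g (k + ev j) else 0 := by
        apply sum_congr rfl
        intro k hk
        simp only [hgB, hk, if_true]
        split_ifs
        · ring
        · ring
      have e4 : ∑ k ∈ B, gB (k - ev j) * gB k = ∑ k ∈ B, gB (k + ev j) * gB k := by
        have h1 : ∑ k ∈ B, gB (k - ev j) * gB k = ∑ k ∈ B with k - ev j ∈ B, gB (k - ev j) * gB k := by
          rw [sum_filter]
          apply sum_congr rfl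
          intro k _
          split_ifs with h
          · rfl
          · rw [hgB0 _ h, zero_mul]
        have h2 : ∑ k ∈ B, gB (k + ev j) * gB k = ∑ k ∈ B with k + ev j ∈ B, gB (k + ev j) * gB k := by
          rw [sum_filter]
          apply sum_congr rfl
          intro k _
          split_ifs with h
          · rfl
          · rw [hgB0 _ h, zero_mul]
        rw [h1, h2]
        refine sum_nbij' (fun k => k - ev j) (fun k => k + ev j) ?_ ?_ ?_ ?_ ?_
        · intro k hk
          rw [mem_filter] at hk ⊢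
          exact ⟨hk.2, by simpa using hk.1⟩
        · intro k hk
          rw [mem_filter] at hk ⊢
          exact ⟨hk.2, by simpa using hk.1⟩
        · intro k _
          simp
        · intro k _
          simp
        · intro k _
          simp only [sub_add_cancel]
          ring
      rw [e4, e3]
      ring)
  refine ⟨fun k => if hk : k ∈ B then f ⟨k, hk⟩ else 0, ?_, ?_, ?_, ?_⟩
  · intro k
    by_cases hk : k ∈ B
    · simp [hk, hf0]
    · simp [hk]
  · intro k hk
    simp [hk]
  · by_contra h
    push Not at h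
    apply hfne
    ext k
    have := h k
    simpa using this
  · intro k hk
    have h1 := hf ⟨k, hk⟩
    have h2 := hact (fun k => if hk : k ∈ B then f ⟨k, hk⟩ else 0) (fun k hk => by simp [hk]) ⟨k, hk⟩
    simp only [hk, dif_pos]
    rw [← h2]
    refine h1.trans (le_of_eq ?_)
    apply sum_congr rfl
    intro l _
    simp
end Pool.Agent.H58.AG
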