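import Mathlib

/-!
# Commuting isometries: decomposition in planes
-/

set_option autoImplicit false
set_option linter.unusedSectionVars false

open Finset Module

namespace Pool.Agent.H58.AG

variable {E : Type*} [NormedAddCommGroup E] [InnerProductSpace ℝ E] [FiniteDimensional ℝ E]

/-- `G` is commutative -/
def Comm (G : Subgroup (E ≃ₗᵢ[ℝ] E)) : Prop := ∀ g ∈ G, ∀ h ∈ G, g * h = h * g

/-- `W` is invariant -/
def Inv (G : Subgroup (E ≃ₗᵢ[ℝ] E)) (W : Submodule ℝ E) : Prop := ∀ g ∈ G, ∀ x ∈ W, g x ∈ W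

lemma inv_symm_apply (g : E ≃ₗᵢ[ℝ] E) (x : E) : g⁻¹ x = g.symm x := rfl

lemma inner_inv (g : E ≃ₗᵢ[ℝ] E) (x y : E) : inner ℝ (g x) y = inner ℝ x (g⁻¹ y) := by
  rw [inv_symm_apply]
  conv_lhs => rw [← g.apply_symm_apply y]
  exact g.inner_map_map x (g.symm y)

lemma inner_inv' (g : E ≃ₗᵢ[ℝ] E) (x y : E) : inner ℝ (g⁻¹ x) y = inner ℝ x (g y) := by
  rw [inner_inv, inv_inv]

lemma inv_orthogonal {G : Subgroup (E ≃ₗᵢ[ℝ] E)} {W : Submodule ℝ E} (h : Inv G W) : Inv G Wᗮ := by
  intro g hg x hx
  rw [Submodule.mem_orthogonal] at hx ⊢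
  intro y hy
  rw [← inner_inv']
  exact hx _ (h _ (G.inv_mem hg) y hy)

lemma inv_inf {G : Subgroup (E ≃ₗᵢ[ℝ] E)} {V W : Submodule ℝ E} (h : Inv G V) (h' : Inv G W) :
    Inv G (V ⊓ W) := fun g hg x hx => ⟨h g hg x hx.1, h' g hg x hx.2⟩

lemma inv_sup {G : Subgroup (E ≃ₗᵢ[ℝ] E)} {V W : Submodule ℝ E} (h : Inv G V) (h' : Inv G W) :
    Inv G (V ⊔ W) := by
  intro g hg x hx
  obtain ⟨y, hy, z, hz, rfl⟩ := Submodule.mem_sup.1 hx
  rw [map_add]
  exact Submodule.add_mem_sup (h g hg y hy) (h' g hg z hz)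

/-- minimal invariant subspaces -/
def IsMin (G : Subgroup (E ≃ₗᵢ[ℝ] E)) (W : Submodule ℝ E) : Prop :=
  Inv G W ∧ W ≠ ⊥ ∧ ∀ W' : Submodule ℝ E, W' ≤ W → Inv G W' → W' ≠ ⊥ → W' = W

lemma exists_min {G : Subgroup (E ≃ₗᵢ[ℝ] E)} {V : Submodule ℝ E} (hV : Inv G V) (h0 : V ≠ ⊥) :
    ∃ W ≤ V, IsMin G W := by
  classical
  have hex : ∃ d : ℕ, ∃ W ≤ V, Inv G W ∧ W ≠ ⊥ ∧ finrank ℝ W = d :=
    ⟨_, V, le_rfl, hV, h0, rfl⟩
  obtain ⟨W, hWV, hW, hW0, hd⟩ := Nat.find_spec hex
  refine ⟨W, hWV, hW, hW0, ?_⟩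
  intro W' hle hW' hW'0
  apply Submodule.eq_of_le_of_finrank_le hle
  rw [hd]
  exact Nat.find_min' hex ⟨W', hle.trans hWV, hW', hW'0, rfl⟩

/-- symmetric operators which commute with the group are scalar on minimal subspaces -/
lemma scalar_of_symm {G : Subgroup (E ≃ₗᵢ[ℝ] E)} {W : Submodule ℝ E} (hW : IsMin G W)
    {T : E →ₗ[ℝ] E} (hT : T.IsSymmetric) (hTW : ∀ x ∈ W, T x ∈ W)
    (hc : ∀ g ∈ G, ∀ x, T (g x) = g (T x)) : ∃ c : ℝ, ∀ x ∈ W, T x = c • x := by
  have hr := hT.restrict_invariant hTW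
  have : Nontrivial W := Submodule.nontrivial_iff_ne_bot.2 hW.2.1
  have h1 := hr.hasEigenvalue_iSup_of_finiteDimensional
  obtain ⟨v, hv⟩ := h1.exists_hasEigenvector
  obtain ⟨c, hcd⟩ : ∃ c : ℝ, T.restrict hTW v = c • v := ⟨_, hv.apply_eq_smul⟩
  refine ⟨c, ?_⟩
  have h2 : W ⊓ LinearMap.ker (T - c • LinearMap.id) = W := by
    apply hW.2.2 _ inf_le_left
    · intro g hg x hx
      refine ⟨hW.1 g hg x hx.1, ?_⟩
      have hx2 := hx.2
      rw [SetLike.mem_coe, LinearMap.mem_ker] at hx2 ⊢
      simp only [LinearMap.sub_apply, LinearMap.smul_apply, LinearMap.id_coe, id_eq] at hx2 ⊢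
      rw [hc g hg, ← map_smul, ← map_sub, hx2, map_zero]
    · intro h
      apply hv.2
      have hmem : (v : E) ∈ W ⊓ LinearMap.ker (T - c • LinearMap.id) := by
        refine ⟨v.2, ?_⟩
        rw [SetLike.mem_coe, LinearMap.mem_ker]
        simp only [LinearMap.sub_apply, LinearMap.smul_apply, LinearMap.id_coe, id_eq]
        have := congrArg Subtype.val hcd
        rw [sub_eq_zero]
        simpa using this
      rw [h, Submodule.mem_bot] at hmem
      exact Subtype.ext hmem
  intro x hx
  rw [← h2] at hx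
  have hx2 := hx.2
  rw [SetLike.mem_coe, LinearMap.mem_ker] at hx2
  simp only [LinearMap.sub_apply, LinearMap.smul_apply, LinearMap.id_coe, id_eq] at hx2
  exact sub_eq_zero.1 hx2

/-- the linear map of an isometry -/
def lin (g : E ≃ₗᵢ[ℝ] E) : E →ₗ[ℝ] E := g.toLinearEquiv.toLinearMap

@[simp] lemma lin_apply (g : E ≃ₗᵢ[ℝ] E) (x : E) : lin g x = g x := rfl

lemma comm_apply {G : Subgroup (E ≃ₗᵢ[ℝ] E)} (hG : Comm G) {g h : E ≃ₗᵢ[ℝ] E} (hg : g ∈ G)
    (hh : h ∈ G) (x : E) : g (h x) = h (g x) := by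
  have := hG g hg h hh
  exact congrArg (fun k : E ≃ₗᵢ[ℝ] E => k x) this

/-- minimal invariant subspaces of commutative groups have dimension at most two -/
lemma finrank_min {G : Subgroup (E ≃ₗᵢ[ℝ] E)} (hG : Comm G) {W : Submodule ℝ E} (hW : IsMin G W) :
    finrank ℝ W ≤ 2 := by
  have hS : ∀ g ∈ G, ∃ a : ℝ, ∀ x ∈ W, g x + g⁻¹ x = a • x := by
    intro g hg
    have h := scalar_of_symm hW (T := lin g + lin g⁻¹) (by
      intro x y
      simp only [LinearMap.add_apply, lin_apply, inner_add_left, inner_add_right]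
      rw [inner_inv, inner_inv']
      ring) (by
      intro x hx
      exact W.add_mem (hW.1 g hg x hx) (hW.1 _ (G.inv_mem hg) x hx)) (by
      intro h hh x
      simp only [LinearMap.add_apply, lin_apply, map_add]
      rw [comm_apply hG hg hh, comm_apply hG (G.inv_mem hg) hh])
    simpa using h
  by_cases hA : ∀ g ∈ G, ∀ x ∈ W, g x = g⁻¹ x
  · -- all elements are scalar
    obtain ⟨w, hw, hw0⟩ := Submodule.exists_mem_ne_zero_of_ne_bot hW.2.1
    have h1 : (ℝ ∙ w) = W := by
      apply hW.2.2
      · rwa [Submodule.span_singleton_le_iff_mem]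
      · intro g hg x hx
        obtain ⟨c, rfl⟩ := Submodule.mem_span_singleton.1 hx
        obtain ⟨a, ha⟩ := hS g hg
        have h2 := ha w hw
        rw [← hA g hg w hw] at h2
        have h3 : g w = (a / 2) • w := by
          have : (2 : ℝ) • g w = a • w := by rw [two_smul]; exact h2
          calc g w = (1 / 2 : ℝ) • ((2 : ℝ) • g w) := by rw [smul_smul]; norm_num
            _ = (a / 2) • w := by rw [this, smul_smul]; congr 1; ring
        rw [map_smul, h3]
        exact Submodule.smul_mem _ _ (Submodule.smul_mem _ _ (Submodule.mem_span_singleton_self w))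
      · rw [Ne, Submodule.span_singleton_eq_bot]
        exact hw0
    rw [← h1, finrank_span_singleton hw0]
    norm_num
  · push Not at hA
    obtain ⟨g0, hg0, x0, hx0, hne⟩ := hA
    set J : E →ₗ[ℝ] E := lin g0 - lin g0⁻¹ with hJ
    have hJa : ∀ x, J x = g0 x - g0⁻¹ x := fun x => by simp [hJ]
    have hJW : ∀ x ∈ W, J x ∈ W := by
      intro x hx
      rw [hJa]
      exact W.sub_mem (hW.1 g0 hg0 x hx) (hW.1 _ (G.inv_mem hg0) x hx)
    have hJskew : ∀ x y, inner ℝ (J x) y = - inner ℝ x (J y) := by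
      intro x y
      rw [hJa, hJa, inner_sub_left, inner_sub_right, inner_inv, inner_inv']
      ring
    have hJcomm : ∀ g ∈ G, ∀ x, J (g x) = g (J x) := by
      intro g hg x
      rw [hJa, hJa, map_sub, comm_apply hG hg0 hg, comm_apply hG (G.inv_mem hg0) hg]
    have hK : ∀ h ∈ G, ∃ b : ℝ, ∀ x ∈ W, J (h x - h⁻¹ x) = b • x := by
      intro h hh
      have hKW : ∀ x ∈ W, h x - h⁻¹ x ∈ W := fun x hx =>
        W.sub_mem (hW.1 h hh x hx) (hW.1 _ (G.inv_mem hh) x hx)
      have h1 := scalar_of_symm hW (T := J ∘ₗ (lin h - lin h⁻¹)) (by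
        intro x y
        simp only [LinearMap.comp_apply, LinearMap.sub_apply, lin_apply]
        rw [hJskew, inner_sub_left, inner_inv, inner_inv', map_sub, hJcomm h hh,
          hJcomm _ (G.inv_mem hh), inner_sub_right]
        ring) (by
        intro x hx
        exact hJW _ (hKW x hx)) (by
        intro g hg x
        simp only [LinearMap.comp_apply, LinearMap.sub_apply, lin_apply]
        rw [comm_apply hG hh hg, comm_apply hG (G.inv_mem hh) hg, ← map_sub, hJcomm g hg])
      simpa using h1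
    obtain ⟨c, hc⟩ := hK g0 hg0
    have hc' : ∀ x ∈ W, J (J x) = c • x := by
      intro x hx
      rw [hJa x]
      exact hc x hx
    have hc0 : c ≠ 0 := by
      intro h0
      have h1 := hc' x0 hx0
      rw [h0, zero_smul] at h1
      have h2 := hJskew x0 (J x0)
      rw [h1, inner_zero_right, neg_zero, real_inner_self_eq_norm_sq] at h2
      have h3 : J x0 = 0 := by
        rw [← norm_eq_zero]
        exact pow_eq_zero_iff (two_ne_zero) |>.1 h2
      rw [hJa, sub_eq_zero] at h3
      exact hne h3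
    -- the action of the elements
    have hact : ∀ h ∈ G, ∃ a b : ℝ, ∀ x ∈ W, h x = a • x + b • J x := by
      intro h hh
      obtain ⟨a, ha⟩ := hS h hh
      obtain ⟨b, hb⟩ := hK h hh
      refine ⟨a / 2, b / c / 2, ?_⟩
      intro x hx
      have h1 := ha x hx
      have hKx : h x - h⁻¹ x ∈ W := W.sub_mem (hW.1 h hh x hx) (hW.1 _ (G.inv_mem hh) x hx)
      have h2 : c • (h x - h⁻¹ x) = b • J x := by
        rw [← hc' _ hKx, hb x hx, map_smul]
      have h3 : h x - h⁻¹ x = (b / c) • J x := by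
        calc h x - h⁻¹ x = (1 / c) • (c • (h x - h⁻¹ x)) := by
              rw [smul_smul, one_div, inv_mul_cancel₀ hc0, one_smul]
          _ = (b / c) • J x := by
              rw [h2, smul_smul]
              congr 1
              ring
      have h4 : (2 : ℝ) • h x = a • x + (b / c) • J x := by
        rw [← h1, ← h3, two_smul]
        abel
      calc h x = (1 / 2 : ℝ) • ((2 : ℝ) • h x) := by rw [smul_smul]; norm_num
        _ = _ := by
          rw [h4, smul_add, smul_smul, smul_smul]
          congr 2 <;> ring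
    obtain ⟨w, hw, hw0⟩ := Submodule.exists_mem_ne_zero_of_ne_bot hW.2.1
    have h1 : Submodule.span ℝ ({w, J w} : Set E) = W := by
      apply hW.2.2
      · rw [Submodule.span_le]
        rintro x (rfl | rfl)
        · exact hw
        · exact hJW _ hw
      · intro g hg x hx
        obtain ⟨α, β, rfl⟩ := Submodule.mem_span_pair.1 hx
        obtain ⟨a, b, hab⟩ := hact g hg
        have hw' : g w = a • w + b • J w := hab w hw
        have hJw' : g (J w) = a • J w + b • c • w := by
          rw [hab _ (hJW _ hw), hc' w hw]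
        have mw : w ∈ Submodule.span ℝ ({w, J w} : Set E) := Submodule.subset_span (by simp)
        have mJ : J w ∈ Submodule.span ℝ ({w, J w} : Set E) := Submodule.subset_span (by simp)
        rw [map_add, map_smul, map_smul, hw', hJw']
        exact Submodule.add_mem _ (Submodule.smul_mem _ _ (Submodule.add_mem _
          (Submodule.smul_mem _ _ mw) (Submodule.smul_mem _ _ mJ)))
          (Submodule.smul_mem _ _ (Submodule.add_mem _ (Submodule.smul_mem _ _ mJ)
            (Submodule.smul_mem _ _ (Submodule.smul_mem _ _ mw))))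
      · intro h
        apply hw0
        have : w ∈ Submodule.span ℝ ({w, J w} : Set E) := Submodule.subset_span (by simp)
        rw [h, Submodule.mem_bot] at this
        exact this
    rw [← h1]
    classical
    have h2 := finrank_span_le_card (R := ℝ) ({w, J w} : Set E)
    refine h2.trans ?_
    rw [Set.toFinset_card]
    exact (Set.toFinset_card _).symm.le.trans ((Finset.card_le_card (by
      intro x hx
      simpa using hx)).trans (Finset.card_le_two (a := w) (b := J w)))

/-- an invariant plane -/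
lemma exists_two {G : Subgroup (E ≃ₗᵢ[ℝ] E)} (hG : Comm G) {V : Submodule ℝ E} (hV : Inv G V)
    (h2 : 2 ≤ finrank ℝ V) : ∃ W ≤ V, Inv G W ∧ finrank ℝ W = 2 := by
  have hV0 : V ≠ ⊥ := by
    rintro rfl
    simp at h2
  obtain ⟨W0, hW0V, hW0⟩ := exists_min hV hV0
  have hle := finrank_min hG hW0
  have hpos : 0 < finrank ℝ W0 := by
    rw [Nat.pos_iff_ne_zero, Ne, Submodule.finrank_eq_zero]
    exact hW0.2.1
  rcases Nat.lt_or_ge (finrank ℝ W0) 2 with hlt | hge
  · have h1 : finrank ℝ W0 = 1 := by omega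
    have hfr : finrank ℝ (W0ᗮ ⊓ V : Submodule ℝ E) + finrank ℝ W0 = finrank ℝ V := by
      have := Submodule.finrank_add_inf_finrank_orthogonal hW0V
      omega
    have hV'0 : V ⊓ W0ᗮ ≠ ⊥ := by
      intro h
      rw [inf_comm] at h
      rw [h] at hfr
      simp at hfr
      omega
    obtain ⟨W1, hW1V, hW1⟩ := exists_min (inv_inf hV (inv_orthogonal hW0.1)) hV'0
    have hle1 := finrank_min hG hW1
    have hpos1 : 0 < finrank ℝ W1 := by
      rw [Nat.pos_iff_ne_zero, Ne, Submodule.finrank_eq_zero]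
      exact hW1.2.1
    rcases Nat.lt_or_ge (finrank ℝ W1) 2 with hlt1 | hge1
    · refine ⟨W0 ⊔ W1, sup_le hW0V (hW1V.trans inf_le_left), inv_sup hW0.1 hW1.1, ?_⟩
      have hinf : W0 ⊓ W1 = ⊥ := by
        rw [eq_bot_iff]
        intro x hx
        have hx2 : x ∈ W0ᗮ := (hW1V hx.2).2
        have := Submodule.inner_right_of_mem_orthogonal hx.1 hx2
        rw [Submodule.mem_bot]
        exact inner_self_eq_zero.1 this
      have := Submodule.finrank_sup_add_finrank_inf_eq W0 W1
      rw [hinf, finrank_bot] at this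
      omega
    · exact ⟨W1, hW1V.trans inf_le_left, hW1.1, by omega⟩
  · exact ⟨W0, hW0V, hW0.1, by omega⟩

/-- an isometry of a plane with the complex numbers -/
noncomputable def toC {W : Submodule ℝ E} (h : finrank ℝ W = 2) : W ≃ₗᵢ[ℝ] ℂ :=
  (((stdOrthonormalBasis ℝ W).reindex (finCongr h)).equiv Complex.orthonormalBasisOneI (Equiv.refl _))

/-- the coordinates in which the group acts by rotations and reflections of the coordinates -/
theorem exists_coords {G : Subgroup (E ≃ₗᵢ[ℝ] E)} (hG : Comm G) (d : ℕ) :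
    ∀ V : Submodule ℝ E, Inv G V → finrank ℝ V = d →
      ∃ Φ : E →ₗ[ℝ] (Fin ((d + 1) / 2) → ℂ), (∀ x ∈ V, ∑ j, ‖Φ x j‖ ^ 2 = ‖x‖ ^ 2) ∧
        ∀ g ∈ G, ∀ x ∈ V, ∀ j, ‖Φ (g x) j‖ = ‖Φ x j‖ := by
  induction d using Nat.strong_induction_on with
  | _ d ih =>
    intro V hV hd
    rcases Nat.lt_or_ge d 2 with hlt | hge
    · interval_cases d
      · refine ⟨0, ?_, ?_⟩
        · intro x hx
          rw [Submodule.finrank_eq_zero] at hd
          rw [hd, Submodule.mem_bot] at hx
          simp [hx]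
        · intro g _ x _ j
          simp
      · -- a line
        have hV0 : V ≠ ⊥ := by
          rintro rfl
          simp at hd
        obtain ⟨w, hw, hw0⟩ := Submodule.exists_mem_ne_zero_of_ne_bot hV0
        set e : E := (1 / ‖w‖) • w with he
        have hwn : ‖w‖ ≠ 0 := norm_ne_zero_iff.2 hw0
        have hen : ‖e‖ = 1 := by
          rw [he, norm_smul, Real.norm_eq_abs, abs_of_nonneg (by positivity), one_div,
            inv_mul_cancel₀ hwn]
        have heV : e ∈ V := V.smul_mem _ hw
        have hspan : (ℝ ∙ e) = V := by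
          apply Submodule.eq_of_le_of_finrank_le
          · rwa [Submodule.span_singleton_le_iff_mem]
          · rw [hd, finrank_span_singleton (by intro h; rw [h, norm_zero] at hen; exact zero_ne_one hen)]
        have hV1 : ∀ x ∈ V, |inner ℝ e x| = ‖x‖ := by
          intro x hx
          rw [← hspan] at hx
          obtain ⟨c, rfl⟩ := Submodule.mem_span_singleton.1 hx
          rw [inner_smul_right, real_inner_self_eq_norm_sq, hen, norm_smul, hen]
          simp
        refine ⟨LinearMap.pi fun _ => Complex.ofRealCLM.toLinearMap ∘ₗ (innerSL ℝ e).toLinearMap,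
          ?_, ?_⟩
        · intro x hx
          simp [hV1 x hx, -sq_abs]
        · intro g hg x hx j
          simp [hV1 x hx, hV1 _ (hV g hg x hx)]
    · obtain ⟨W, hWV, hW, hW2⟩ := exists_two hG hV (by omega)
      have hfr : finrank ℝ (W ᗮ ⊓ V : Submodule ℝ E) + finrank ℝ W = finrank ℝ V := by
        have := Submodule.finrank_add_inf_finrank_orthogonal hWV
        omega
      obtain ⟨Φ', hΦ1, hΦ2⟩ := ih (d - 2) (by omega) (Wᗮ ⊓ V) (inv_inf (inv_orthogonal hW) hV)
        (by omega)
      have hdim : (d + 1) / 2 = (d - 2 + 1) / 2 + 1 := by omega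
      rw [hdim]
      have hsub : ∀ x : E, x - (W.orthogonalProjectionOnto x : E) ∈ Wᗮ := by
        intro x
        rw [← Submodule.starProjection_apply]
        exact Submodule.sub_starProjection_mem_orthogonal x
      set pW : E →ₗ[ℝ] ℂ := (toC hW2).toLinearEquiv.toLinearMap ∘ₗ W.orthogonalProjectionOnto.toLinearMap
        with hpW
      set pO : E →ₗ[ℝ] E := LinearMap.id - W.subtype ∘ₗ W.orthogonalProjectionOnto.toLinearMap with hpO
      have hpWn : ∀ x, ‖pW x‖ = ‖(W.orthogonalProjectionOnto x : E)‖ := by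
        intro x
        rw [hpW]
        simp
      have hpOa : ∀ x, pO x = x - (W.orthogonalProjectionOnto x : E) := by
        intro x
        simp [hpO]
      have hpOmem : ∀ x ∈ V, pO x ∈ Wᗮ ⊓ V := by
        intro x hx
        rw [hpOa]
        exact ⟨hsub x,
          V.sub_mem hx (hWV (W.orthogonalProjectionOnto x).2)⟩
      have hcomm : ∀ g ∈ G, ∀ x, (W.orthogonalProjectionOnto (g x) : E) = g (W.orthogonalProjectionOnto x) := by
        intro g hg x
        have h6 := Submodule.eq_starProjection_of_mem_orthogonal (K := W) (u := g x)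
          (v := g (W.orthogonalProjectionOnto x)) (hW g hg _ (W.orthogonalProjectionOnto x).2) (by
            rw [← map_sub]
            exact inv_orthogonal hW g hg _ (hsub x))
        rw [← h6, Submodule.starProjection_apply]
      refine ⟨LinearMap.pi (Fin.cons pW (fun j => LinearMap.proj j ∘ₗ Φ' ∘ₗ pO)), ?_, ?_⟩
      · intro x hx
        rw [Fin.sum_univ_succ]
        simp only [LinearMap.pi_apply, Fin.cons_zero, Fin.cons_succ, LinearMap.comp_apply,
          LinearMap.proj_apply]
        rw [hΦ1 _ (hpOmem x hx), hpWn, hpOa]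
        have h3 : inner ℝ (W.orthogonalProjectionOnto x : E) (x - (W.orthogonalProjectionOnto x : E)) = 0 :=
          Submodule.inner_right_of_mem_orthogonal (W.orthogonalProjectionOnto x).2
            (hsub x)
        have h4 := norm_add_sq_real (W.orthogonalProjectionOnto x : E) (x - (W.orthogonalProjectionOnto x : E))
        rw [h3, add_sub_cancel] at h4
        linarith
      · intro g hg x hx j
        refine Fin.cases ?_ ?_ j
        · simp only [LinearMap.pi_apply, Fin.cons_zero]
          rw [hpWn, hpWn, hcomm g hg, LinearIsometryEquiv.norm_map]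
        · intro i
          simp only [LinearMap.pi_apply, Fin.cons_succ, LinearMap.comp_apply, LinearMap.proj_apply]
          have h5 : pO (g x) = g (pO x) := by
            rw [hpOa, hpOa, hcomm g hg, map_sub]
          rw [h5]
          exact hΦ2 g hg _ (hpOmem x hx) i

end Pool.Agent.H58.AG
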