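import Mathlib

/-!
# The linear programming bound on a torus: the basic inequality
-/

set_option autoImplicit false

open Finset

namespace Pool.Agent.H58.AG

variable {α : Type*} {m : ℕ}

/-- the unit vector of the direction `j` -/
def ev (j : Fin m) : Fin m → ℤ := Pi.single j 1

/-- the characters of the torus -/
noncomputable def chr (v : Fin m → Circle) (k : Fin m → ℤ) : Circle := ∏ j, v j ^ k j

lemma chr_zero (v : Fin m → Circle) : chr v 0 = 1 := by
  simp [chr]

lemma chr_add (v : Fin m → Circle) (k l : Fin m → ℤ) : chr v (k + l) = chr v k * chr v l := by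
  simp only [chr, Pi.add_apply, zpow_add, prod_mul_distrib]

lemma chr_sub (v : Fin m → Circle) (k l : Fin m → ℤ) : chr v (k - l) = chr v k * (chr v l)⁻¹ := by
  simp only [chr, Pi.sub_apply, zpow_sub, prod_mul_distrib, prod_inv_distrib]

lemma chr_ev (v : Fin m → Circle) (j : Fin m) : chr v (ev j) = v j := by
  unfold chr ev
  rw [prod_eq_single j]
  · simp
  · intro i _ hi
    simp [Pi.single_eq_of_ne hi]
  · simp

lemma chr_div (v w : Fin m → Circle) (k : Fin m → ℤ) :
    chr (fun j => v j * (w j)⁻¹) k = chr v k * (chr w k)⁻¹ := by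
  simp only [chr, mul_zpow, prod_mul_distrib, inv_zpow, prod_inv_distrib]

/-- the real part -/
noncomputable def rc (z : Circle) : ℝ := (z : ℂ).re

lemma rc_one : rc 1 = 1 := by simp [rc]

lemma rc_mul_rc (v d : Circle) : rc v * rc d = (rc (d * v) + rc (d * v⁻¹)) / 2 := by
  have h1 : ((v⁻¹ : Circle) : ℂ) = (starRingEnd ℂ) v := Circle.coe_inv_eq_conj v
  simp only [rc, Circle.coe_mul, h1, Complex.mul_re, Complex.conj_re, Complex.conj_im]
  ring

/-- the inner product of two points of a torus -/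
noncomputable def ip (p : Fin m → ℝ) (v : Fin m → Circle) : ℝ := ∑ j, p j * rc (v j)

lemma ip_mul_rc (p : Fin m → ℝ) (v : Fin m → Circle) (k : Fin m → ℤ) :
    ip p v * rc (chr v k) = ∑ j, p j / 2 * (rc (chr v (k + ev j)) + rc (chr v (k - ev j))) := by
  unfold ip
  rw [sum_mul]
  apply sum_congr rfl
  intro j _
  rw [mul_assoc, rc_mul_rc, chr_add, chr_sub, chr_ev]
  ring

/-- the square of the absolute value of a trigonometric polynomial -/
lemma norm_sq_poly (v : Fin m → Circle) (B : Finset (Fin m → ℤ)) (f : (Fin m → ℤ) → ℝ) :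
    ‖∑ k ∈ B, (f k : ℂ) * (chr v k : ℂ)‖ ^ 2 =
      ∑ k ∈ B, ∑ l ∈ B, f k * f l * rc (chr v (k - l)) := by
  rw [← Complex.normSq_eq_norm_sq]
  have h1 : (Complex.normSq (∑ k ∈ B, (f k : ℂ) * (chr v k : ℂ)) : ℂ) =
      (∑ k ∈ B, (f k : ℂ) * (chr v k : ℂ)) * (starRingEnd ℂ) (∑ k ∈ B, (f k : ℂ) * (chr v k : ℂ)) :=
    (Complex.mul_conj _).symm
  have h2 : Complex.normSq (∑ k ∈ B, (f k : ℂ) * (chr v k : ℂ)) =
      ((∑ k ∈ B, (f k : ℂ) * (chr v k : ℂ)) *
        (starRingEnd ℂ) (∑ k ∈ B, (f k : ℂ) * (chr v k : ℂ))).re := by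
    rw [← h1, Complex.ofReal_re]
  rw [h2, map_sum, sum_mul_sum, Complex.re_sum]
  apply sum_congr rfl
  intro k _
  rw [Complex.re_sum]
  apply sum_congr rfl
  intro l _
  rw [chr_sub]
  simp only [rc, Circle.coe_mul, Circle.coe_inv_eq_conj, map_mul, Complex.conj_ofReal]
  rw [show (f k : ℂ) * (chr v k : ℂ) * ((f l : ℂ) * (starRingEnd ℂ) (chr v l : ℂ)) =
    ((f k * f l : ℝ) : ℂ) * ((chr v k : ℂ) * (starRingEnd ℂ) (chr v l : ℂ)) by push_cast; ring]
  rw [Complex.re_ofReal_mul]

/-- the square of the absolute value of the sum of a character -/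
noncomputable def am (X : Finset α) (u : α → Fin m → Circle) (k : Fin m → ℤ) : ℝ :=
  ‖∑ x ∈ X, (chr (u x) k : ℂ)‖ ^ 2

lemma am_nonneg (X : Finset α) (u : α → Fin m → Circle) (k : Fin m → ℤ) : 0 ≤ am X u k := by
  unfold am
  positivity

lemma am_zero (X : Finset α) (u : α → Fin m → Circle) : am X u 0 = (X.card : ℝ) ^ 2 := by
  simp [am, chr_zero]

lemma am_eq (X : Finset α) (u : α → Fin m → Circle) (k : Fin m → ℤ) :
    ∑ x ∈ X, ∑ y ∈ X, rc (chr (fun j => u x j * (u y j)⁻¹) k) = am X u k := by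
  unfold am
  rw [← Complex.normSq_eq_norm_sq]
  have h2 : Complex.normSq (∑ x ∈ X, (chr (u x) k : ℂ)) =
      ((∑ x ∈ X, (chr (u x) k : ℂ)) * (starRingEnd ℂ) (∑ x ∈ X, (chr (u x) k : ℂ))).re := by
    rw [Complex.mul_conj, Complex.ofReal_re]
  rw [h2, map_sum, sum_mul_sum, Complex.re_sum]
  apply sum_congr rfl
  intro x _
  rw [Complex.re_sum]
  apply sum_congr rfl
  intro y _
  rw [chr_div]
  simp only [rc, Circle.coe_mul, Circle.coe_inv_eq_conj]

/-- a shift of the summation -/
lemma sum_shift {B : Finset (Fin m → ℤ)} {f g : (Fin m → ℤ) → ℝ} (hf : ∀ k, 0 ≤ f k)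
    (hB : ∀ k, k ∉ B → f k = 0) (hg : ∀ k, 0 ≤ g k) (e : Fin m → ℤ) :
    ∑ k ∈ B, f (k - e) * g k ≤ ∑ k ∈ B, f k * g (k + e) := by
  classical
  have h1 : ∑ k ∈ B, f (k - e) * g k = ∑ k ∈ B with k - e ∈ B, f (k - e) * g k := by
    rw [sum_filter]
    apply sum_congr rfl
    intro k _
    split_ifs with h
    · rfl
    · rw [hB _ h, zero_mul]
  have h2 : ∑ k ∈ B with k - e ∈ B, f (k - e) * g k =
      ∑ k ∈ (B.filter (fun k => k - e ∈ B)).image (fun k => k - e), f k * g (k + e) := by
    rw [sum_image]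
    · simp
    · intro a _ b _ h
      simpa using h
  rw [h1, h2]
  apply sum_le_sum_of_subset_of_nonneg
  · intro k hk
    rw [mem_image] at hk
    obtain ⟨l, hl, rfl⟩ := hk
    exact (mem_filter.1 hl).2
  · intro k _ _
    exact mul_nonneg (hf _) (hg _)

/-- the basic inequality -/
theorem basic {X : Finset α} {u : α → Fin m → Circle} {p : Fin m → ℝ} (hp : ∀ j, 0 ≤ p j)
    (hp1 : ∑ j, p j = 1) {s lam : ℝ}
    (hX : ∀ x ∈ X, ∀ y ∈ X, x ≠ y → ip p (fun j => u x j * (u y j)⁻¹) ≤ s)
    {B : Finset (Fin m → ℤ)} {f : (Fin m → ℤ) → ℝ} (hf : ∀ k, 0 ≤ f k)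
    (hB : ∀ k, k ∉ B → f k = 0)
    (hev : ∀ k ∈ B, lam * f k ≤ ∑ j, p j / 2 * (f (k - ev j) + f (k + ev j))) (hs : s ≤ lam) :
    (lam - s) * (X.card : ℝ) ^ 2 * ∑ k ∈ B, f k ^ 2 ≤ (1 - s) * X.card * (∑ k ∈ B, f k) ^ 2 := by
  classical
  set F : α → α → ℝ := fun x y =>
    ‖∑ k ∈ B, (f k : ℂ) * (chr (fun j => u x j * (u y j)⁻¹) k : ℂ)‖ ^ 2 with hF
  set S : ℝ := ∑ x ∈ X, ∑ y ∈ X, (ip p (fun j => u x j * (u y j)⁻¹) - s) * F x y with hS
  have hF0 : ∀ x y, 0 ≤ F x y := fun x y => by simp only [hF]; positivity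
  have hdiag : ∀ x, F x x = (∑ k ∈ B, f k) ^ 2 := by
    intro x
    have h1 : ∀ k, chr (fun j => u x j * (u x j)⁻¹) k = 1 := by
      intro k
      rw [chr_div, mul_inv_cancel]
    simp only [hF, h1, Circle.coe_one, mul_one]
    rw [← Complex.ofReal_sum, Complex.norm_real, Real.norm_eq_abs, sq_abs]
  have hipd : ∀ x, ip p (fun j => u x j * (u x j)⁻¹) = 1 := by
    intro x
    simp [ip, rc_one, hp1]
  -- the upper bound
  have hup : S ≤ (1 - s) * X.card * (∑ k ∈ B, f k) ^ 2 := by
    have h1 : S ≤ ∑ x ∈ X, (1 - s) * (∑ k ∈ B, f k) ^ 2 := by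
      rw [hS]
      apply sum_le_sum
      intro x hx
      rw [← sum_erase_add _ _ hx, hipd, hdiag]
      have h2 : ∑ y ∈ X.erase x, (ip p (fun j => u x j * (u y j)⁻¹) - s) * F x y ≤ 0 := by
        apply sum_nonpos
        intro y hy
        rw [mem_erase] at hy
        have h3 := hX x hx y hy.2 (Ne.symm hy.1)
        nlinarith [hF0 x y]
      linarith
    refine h1.trans (le_of_eq ?_)
    rw [sum_const, nsmul_eq_mul]
    ring
  -- the lower bound
  set a : (Fin m → ℤ) → ℝ := am X u with ha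
  have ha0 : ∀ k, 0 ≤ a k := am_nonneg X u
  have hS2 : S = ∑ l ∈ B, f l * ∑ k ∈ B, f k *
      ((∑ j, p j / 2 * (a (k - l + ev j) + a (k - l - ev j))) - s * a (k - l)) := by
    have h1 : ∀ x y, (ip p (fun j => u x j * (u y j)⁻¹) - s) * F x y =
        ∑ k ∈ B, ∑ l ∈ B, f k * f l *
          ((∑ j, p j / 2 * (rc (chr (fun j => u x j * (u y j)⁻¹) (k - l + ev j)) +
            rc (chr (fun j => u x j * (u y j)⁻¹) (k - l - ev j)))) -
            s * rc (chr (fun j => u x j * (u y j)⁻¹) (k - l))) := by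
      intro x y
      simp only [hF]
      rw [norm_sq_poly, mul_sum]
      apply sum_congr rfl
      intro k _
      rw [mul_sum]
      apply sum_congr rfl
      intro l _
      rw [← ip_mul_rc]
      ring
    have h2 : S = ∑ k ∈ B, ∑ l ∈ B, f k * f l *
        ((∑ j, p j / 2 * (a (k - l + ev j) + a (k - l - ev j))) - s * a (k - l)) := by
      rw [hS]
      simp_rw [h1]
      have h3 : ∀ x ∈ X, ∑ y ∈ X, ∑ k ∈ B, ∑ l ∈ B, f k * f l *
          ((∑ j, p j / 2 * (rc (chr (fun j => u x j * (u y j)⁻¹) (k - l + ev j)) +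
            rc (chr (fun j => u x j * (u y j)⁻¹) (k - l - ev j)))) -
            s * rc (chr (fun j => u x j * (u y j)⁻¹) (k - l))) =
          ∑ k ∈ B, ∑ l ∈ B, ∑ y ∈ X, f k * f l *
          ((∑ j, p j / 2 * (rc (chr (fun j => u x j * (u y j)⁻¹) (k - l + ev j)) +
            rc (chr (fun j => u x j * (u y j)⁻¹) (k - l - ev j)))) -
            s * rc (chr (fun j => u x j * (u y j)⁻¹) (k - l))) := by
        intro x _
        rw [sum_comm]
        apply sum_congr rfl
        intro k _
        rw [sum_comm]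
      rw [sum_congr rfl h3, sum_comm]
      apply sum_congr rfl
      intro k _
      rw [sum_comm]
      apply sum_congr rfl
      intro l _
      have h4 : ∀ q, a q = ∑ x ∈ X, ∑ y ∈ X, rc (chr (fun j => u x j * (u y j)⁻¹) q) := by
        intro q
        rw [ha, am_eq]
      have h5 : ∑ x ∈ X, ∑ y ∈ X, (∑ j, p j / 2 * (rc (chr (fun j => u x j * (u y j)⁻¹) (k - l + ev j)) +
            rc (chr (fun j => u x j * (u y j)⁻¹) (k - l - ev j)))) =
            ∑ j, p j / 2 * (a (k - l + ev j) + a (k - l - ev j)) := by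
        rw [sum_congr rfl (fun x _ => sum_comm), sum_comm]
        apply sum_congr rfl
        intro j _
        rw [h4, h4, ← sum_add_distrib, mul_sum]
        apply sum_congr rfl
        intro x _
        rw [← sum_add_distrib, mul_sum]
      simp_rw [mul_sub, sum_sub_distrib]
      rw [← h5, h4 (k - l)]
      simp_rw [mul_sum]
    rw [h2, sum_comm]
    apply sum_congr rfl
    intro l _
    rw [mul_sum]
    apply sum_congr rfl
    intro k _
    ring
  have hlow : (lam - s) * (X.card : ℝ) ^ 2 * ∑ k ∈ B, f k ^ 2 ≤ S := by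
    rw [hS2]
    have h1 : ∀ l ∈ B, (lam - s) * (X.card : ℝ) ^ 2 * f l ≤ ∑ k ∈ B, f k *
        ((∑ j, p j / 2 * (a (k - l + ev j) + a (k - l - ev j))) - s * a (k - l)) := by
      intro l hl
      have h2 : ∀ j, ∑ k ∈ B, (f (k - ev j) + f (k + ev j)) * a (k - l) ≤
          ∑ k ∈ B, f k * (a (k - l + ev j) + a (k - l - ev j)) := by
        intro j
        have h3 := sum_shift hf hB (g := fun k => a (k - l)) (fun k => ha0 _) (ev j)
        have h4 := sum_shift hf hB (g := fun k => a (k - l)) (fun k => ha0 _) (-ev j)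
        simp only [sub_neg_eq_add] at h4
        have e1 : ∀ k, k + ev j - l = k - l + ev j := fun k => by abel
        have e2 : ∀ k, k + -ev j - l = k - l - ev j := fun k => by abel
        simp only [e1] at h3
        simp only [e2] at h4
        calc ∑ k ∈ B, (f (k - ev j) + f (k + ev j)) * a (k - l)
            = ∑ k ∈ B, f (k - ev j) * a (k - l) + ∑ k ∈ B, f (k + ev j) * a (k - l) := by
              rw [← sum_add_distrib]
              apply sum_congr rfl
              intro k _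
              ring
          _ ≤ ∑ k ∈ B, f k * a (k - l + ev j) + ∑ k ∈ B, f k * a (k - l - ev j) := add_le_add h3 h4
          _ = _ := by
              rw [← sum_add_distrib]
              apply sum_congr rfl
              intro k _
              ring
      have h5 : ∑ k ∈ B, (∑ j, p j / 2 * (f (k - ev j) + f (k + ev j))) * a (k - l) ≤
          ∑ k ∈ B, f k * ∑ j, p j / 2 * (a (k - l + ev j) + a (k - l - ev j)) := by
        have e1 : ∑ k ∈ B, (∑ j, p j / 2 * (f (k - ev j) + f (k + ev j))) * a (k - l) =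
            ∑ j, p j / 2 * ∑ k ∈ B, (f (k - ev j) + f (k + ev j)) * a (k - l) := by
          simp_rw [sum_mul, mul_sum]
          rw [sum_comm]
          apply sum_congr rfl
          intro j _
          apply sum_congr rfl
          intro k _
          ring
        have e2 : ∑ k ∈ B, f k * ∑ j, p j / 2 * (a (k - l + ev j) + a (k - l - ev j)) =
            ∑ j, p j / 2 * ∑ k ∈ B, f k * (a (k - l + ev j) + a (k - l - ev j)) := by
          simp_rw [mul_sum]
          rw [sum_comm]
          apply sum_congr rfl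
          intro j _
          apply sum_congr rfl
          intro k _
          ring
        rw [e1, e2]
        apply sum_le_sum
        intro j _
        exact mul_le_mul_of_nonneg_left (h2 j) (by linarith [hp j])
      have h6 : ∑ k ∈ B, (lam * f k) * a (k - l) ≤
          ∑ k ∈ B, (∑ j, p j / 2 * (f (k - ev j) + f (k + ev j))) * a (k - l) := by
        apply sum_le_sum
        intro k hk
        exact mul_le_mul_of_nonneg_right (hev k hk) (ha0 _)
      have h7 : (lam - s) * (X.card : ℝ) ^ 2 * f l ≤ ∑ k ∈ B, (lam - s) * f k * a (k - l) := by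
        have h8 : (lam - s) * f l * a (l - l) ≤ ∑ k ∈ B, (lam - s) * f k * a (k - l) :=
          single_le_sum (f := fun k => (lam - s) * f k * a (k - l))
            (fun k _ => mul_nonneg (mul_nonneg (by linarith) (hf k)) (ha0 _)) hl
        rw [sub_self, ha, am_zero] at h8
        linarith
      have h9 : ∑ k ∈ B, f k * ((∑ j, p j / 2 * (a (k - l + ev j) + a (k - l - ev j))) - s * a (k - l)) =
          ∑ k ∈ B, f k * (∑ j, p j / 2 * (a (k - l + ev j) + a (k - l - ev j))) -
            ∑ k ∈ B, s * f k * a (k - l) := by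
        rw [← sum_sub_distrib]
        apply sum_congr rfl
        intro k _
        ring
      have h10 : ∑ k ∈ B, (lam - s) * f k * a (k - l) =
          ∑ k ∈ B, (lam * f k) * a (k - l) - ∑ k ∈ B, s * f k * a (k - l) := by
        rw [← sum_sub_distrib]
        apply sum_congr rfl
        intro k _
        ring
      rw [h9]
      linarith
    calc (lam - s) * (X.card : ℝ) ^ 2 * ∑ k ∈ B, f k ^ 2
        = ∑ l ∈ B, f l * ((lam - s) * (X.card : ℝ) ^ 2 * f l) := by
          rw [mul_sum]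
          apply sum_congr rfl
          intro k _
          ring
      _ ≤ _ := by
          apply sum_le_sum
          intro l hl
          exact mul_le_mul_of_nonneg_left (h1 l hl) (hf l)
  exact hlow.trans hup

/-- the bound for the number of points -/
theorem card_le {X : Finset α} {u : α → Fin m → Circle} {p : Fin m → ℝ} (hp : ∀ j, 0 ≤ p j)
    (hp1 : ∑ j, p j = 1) {s lam : ℝ}
    (hX : ∀ x ∈ X, ∀ y ∈ X, x ≠ y → ip p (fun j => u x j * (u y j)⁻¹) ≤ s)
    {B : Finset (Fin m → ℤ)} {f : (Fin m → ℤ) → ℝ} (hf : ∀ k, 0 ≤ f k)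
    (hB : ∀ k, k ∉ B → f k = 0) (hne : ∃ k, f k ≠ 0)
    (hev : ∀ k ∈ B, lam * f k ≤ ∑ j, p j / 2 * (f (k - ev j) + f (k + ev j))) (hs : s < lam)
    (hs1 : s ≤ 1) :
    (lam - s) * X.card ≤ (1 - s) * B.card := by
  rcases X.eq_empty_or_nonempty with rfl | hXn
  · simp only [card_empty, Nat.cast_zero, mul_zero]
    exact mul_nonneg (by linarith) (Nat.cast_nonneg _)
  have h1 := basic hp hp1 hX hf hB hev hs.le
  have h2 : (∑ k ∈ B, f k) ^ 2 ≤ B.card * ∑ k ∈ B, f k ^ 2 := sq_sum_le_card_mul_sum_sq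
  have hN : (0 : ℝ) < X.card := by exact_mod_cast hXn.card_pos
  have h3 : 0 < ∑ k ∈ B, f k ^ 2 := by
    obtain ⟨k, hk⟩ := hne
    have hkB : k ∈ B := by
      by_contra h
      exact hk (hB k h)
    apply sum_pos' (fun k _ => sq_nonneg _) ⟨k, hkB, by positivity⟩
  have h4 : (lam - s) * (X.card : ℝ) ^ 2 * ∑ k ∈ B, f k ^ 2 ≤
      (1 - s) * X.card * (B.card * ∑ k ∈ B, f k ^ 2) := by
    refine h1.trans ?_
    apply mul_le_mul_of_nonneg_left h2
    exact mul_nonneg (by linarith) hN.le
  have h5 : ((lam - s) * X.card) * (X.card * ∑ k ∈ B, f k ^ 2) ≤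
      ((1 - s) * B.card) * (X.card * ∑ k ∈ B, f k ^ 2) := by
    nlinarith
  exact le_of_mul_le_mul_right h5 (mul_pos hN h3)

end Pool.Agent.H58.AG
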