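import Pool.Agent.H58.AG.Decomp

/-!
# Orbits of elementary abelian groups of sign changes: binary linear codes
-/

set_option autoImplicit false

open Finset Filter Topology

namespace Pool.Agent.H58.AG

/-- a linear code with few small weights and many words -/
lemma exists_code (n : ℕ) : ∃ C : Submodule (ZMod 2) (Fin n → ZMod 2),
    (∀ v ∈ C, v ≠ 0 → n ≤ 4 * hammingNorm v) ∧
    (2 : ℝ) ^ n ≤ Nat.card C * ((4 / 3 : ℝ) ^ n * (3 : ℝ) ^ ((n : ℝ) / 4)) := by
  classical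
  set P : Set (Submodule (ZMod 2) (Fin n → ZMod 2)) :=
    {C | ∀ v ∈ C, v ≠ 0 → n ≤ 4 * hammingNorm v} with hP
  have hfin : P.Finite := Set.toFinite P
  have hne : P.Nonempty := ⟨⊥, by
    intro v hv h0
    exact absurd ((Submodule.mem_bot _).1 hv) h0⟩
  obtain ⟨C, hC⟩ := hfin.exists_maximal hne
  refine ⟨C, hC.prop, ?_⟩
  have hcov : ∀ v : Fin n → ZMod 2, ∃ c : C, 4 * hammingNorm (v - (c : Fin n → ZMod 2)) ≤ n := by
    intro v
    by_cases hv : v ∈ C
    · exact ⟨⟨v, hv⟩, by simp⟩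
    · have hlt : ¬ (C ⊔ Submodule.span (ZMod 2) {v}) ∈ P := by
        intro h
        have := hC.le_of_ge h le_sup_left
        exact hv (this (Submodule.mem_sup_right (Submodule.mem_span_singleton_self v)))
      simp only [hP, Set.mem_ofPred_eq] at hlt
      push Not at hlt
      obtain ⟨w, hw, hw0, hwn⟩ := hlt
      obtain ⟨c, hc, d, hd, rfl⟩ := Submodule.mem_sup.1 hw
      obtain ⟨a, rfl⟩ := Submodule.mem_span_singleton.1 hd
      have h01 : ∀ a : ZMod 2, a = 0 ∨ a = 1 := by decide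
      rcases h01 a with rfl | rfl
      · rw [zero_smul, add_zero] at hw0 hwn
        exact absurd (hC.prop c hc hw0) (not_le.2 hwn)
      · refine ⟨⟨-c, C.neg_mem hc⟩, ?_⟩
        rw [one_smul] at hwn
        have : v - (-c) = c + v := by abel
        simp only [this]
        omega
  -- counting
  have h1 : ∀ v : Fin n → ZMod 2, (1 : ℝ) ≤ ∑ c : C, if 4 * hammingNorm (v - (c : Fin n → ZMod 2)) ≤ n then 1 else 0 := by
    intro v
    obtain ⟨c, hc⟩ := hcov v
    have := single_le_sum (f := fun c : C => if 4 * hammingNorm (v - (c : Fin n → ZMod 2)) ≤ n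
      then (1 : ℝ) else 0) (fun i _ => by split_ifs <;> norm_num) (mem_univ c)
    simp only [hc, if_true] at this
    exact this
  have h2 : ∀ w : Fin n → ZMod 2, (if 4 * hammingNorm w ≤ n then (1 : ℝ) else 0) ≤
      (3 : ℝ) ^ ((n : ℝ) / 4) * ∏ i, (if w i = 0 then 1 else 1 / 3 : ℝ) := by
    intro w
    have e1 : ∏ i, (if w i = 0 then 1 else 1 / 3 : ℝ) = (1 / 3 : ℝ) ^ hammingNorm w := by
      rw [prod_ite]
      simp [hammingNorm]
    rw [e1]
    split_ifs with h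
    · have e2 : (1 / 3 : ℝ) ^ hammingNorm w = (3 : ℝ) ^ (-(hammingNorm w : ℝ)) := by
        rw [Real.rpow_neg (by norm_num), Real.rpow_natCast, one_div, inv_pow]
      rw [e2, ← Real.rpow_add (by norm_num)]
      apply Real.one_le_rpow (by norm_num)
      have h' : (4 : ℝ) * hammingNorm w ≤ n := by exact_mod_cast h
      linarith
    · positivity
  have h3 : ∑ w : Fin n → ZMod 2, ∏ i, (if w i = 0 then 1 else 1 / 3 : ℝ) = (4 / 3) ^ n := by
    have := Finset.prod_univ_sum (fun _ : Fin n => (univ : Finset (ZMod 2)))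
      (fun _ a => (if a = 0 then 1 else 1 / 3 : ℝ))
    rw [Fintype.piFinset_univ] at this
    rw [← this]
    have e : ∑ a : ZMod 2, (if a = 0 then 1 else 1 / 3 : ℝ) = 4 / 3 := by
      rw [show (univ : Finset (ZMod 2)) = {0, 1} by rfl]
      rw [sum_pair (by decide)]
      norm_num
    rw [e, prod_const, card_univ, Fintype.card_fin]
  calc (2 : ℝ) ^ n = ∑ v : Fin n → ZMod 2, (1 : ℝ) := by
        rw [sum_const, card_univ, Fintype.card_fun, ZMod.card, Fintype.card_fin]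
        simp
    _ ≤ ∑ v : Fin n → ZMod 2, ∑ c : C, (if 4 * hammingNorm (v - (c : Fin n → ZMod 2)) ≤ n then 1 else 0) :=
        sum_le_sum fun v _ => h1 v
    _ = ∑ c : C, ∑ v : Fin n → ZMod 2, (if 4 * hammingNorm (v - (c : Fin n → ZMod 2)) ≤ n then (1 : ℝ) else 0) :=
        sum_comm
    _ = ∑ c : C, ∑ v : Fin n → ZMod 2, (if 4 * hammingNorm v ≤ n then (1 : ℝ) else 0) := by
        apply sum_congr rfl
        intro c _
        exact Fintype.sum_equiv (Equiv.subRight (c : Fin n → ZMod 2)) _ _ (fun v => rfl)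
    _ ≤ ∑ c : C, ((4 / 3 : ℝ) ^ n * (3 : ℝ) ^ ((n : ℝ) / 4)) := by
        apply sum_le_sum
        intro c _
        calc ∑ v : Fin n → ZMod 2, (if 4 * hammingNorm v ≤ n then (1 : ℝ) else 0)
            ≤ ∑ w : Fin n → ZMod 2, (3 : ℝ) ^ ((n : ℝ) / 4) * ∏ i, (if w i = 0 then 1 else 1 / 3 : ℝ) :=
              sum_le_sum fun w _ => h2 w
          _ = _ := by rw [← mul_sum, h3, mul_comm]
    _ = Nat.card C * ((4 / 3 : ℝ) ^ n * (3 : ℝ) ^ ((n : ℝ) / 4)) := by
        rw [sum_const, card_univ, nsmul_eq_mul, Nat.card_eq_fintype_card]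

/-- the sign of an element of `ZMod 2` -/
def sg (a : ZMod 2) : ℝ := if a = 0 then 1 else -1

lemma sg_add (a b : ZMod 2) : sg (a + b) = sg a * sg b := by
  unfold sg
  have ha : a = 0 ∨ a = 1 := by revert a; decide
  have hb : b = 0 ∨ b = 1 := by revert b; decide
  have h1 : (1 : ZMod 2) ≠ 0 := by decide
  have h2 : (1 + 1 : ZMod 2) = 0 := by decide
  rcases ha with rfl | rfl <;> rcases hb with rfl | rfl <;> simp [h1, h2]

lemma sg_sq (a : ZMod 2) : sg a * sg a = 1 := by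
  unfold sg
  split_ifs <;> norm_num

/-- the change of signs -/
noncomputable def sgn {n : ℕ} (c : Fin n → ZMod 2) :
    EuclideanSpace ℝ (Fin n) ≃ₗᵢ[ℝ] EuclideanSpace ℝ (Fin n) :=
  LinearIsometryEquiv.piLpCongrRight 2
    (fun i => if c i = 0 then LinearIsometryEquiv.refl ℝ ℝ else LinearIsometryEquiv.neg ℝ)

lemma sgn_apply {n : ℕ} (c : Fin n → ZMod 2) (x : EuclideanSpace ℝ (Fin n)) (i : Fin n) :
    sgn c x i = sg (c i) * x i := by
  simp only [sgn, LinearIsometryEquiv.piLpCongrRight_apply, sg]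
  split_ifs <;> simp

lemma sgn_add {n : ℕ} (c d : Fin n → ZMod 2) : sgn (c + d) = sgn c * sgn d := by
  ext x i
  rw [LinearIsometryEquiv.coe_mul, Function.comp_apply, sgn_apply, sgn_apply, sgn_apply,
    Pi.add_apply, sg_add]
  ring

lemma sgn_zero {n : ℕ} : sgn (0 : Fin n → ZMod 2) = 1 := by
  ext x i
  rw [sgn_apply]
  simp [sg]

lemma sgn_inv {n : ℕ} (c : Fin n → ZMod 2) : (sgn c)⁻¹ = sgn c := by
  rw [inv_eq_iff_mul_eq_one, ← sgn_add]
  have : c + c = 0 := by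
    ext i
    have : ∀ a : ZMod 2, a + a = 0 := by decide
    exact this (c i)
  rw [this, sgn_zero]

/-- the group of the changes of signs in a code -/
def sgnGroup {n : ℕ} (C : Submodule (ZMod 2) (Fin n → ZMod 2)) :
    Subgroup (EuclideanSpace ℝ (Fin n) ≃ₗᵢ[ℝ] EuclideanSpace ℝ (Fin n)) where
  carrier := {g | ∃ c ∈ C, g = sgn c}
  mul_mem' := by
    rintro _ _ ⟨c, hc, rfl⟩ ⟨d, hd, rfl⟩
    exact ⟨c + d, C.add_mem hc hd, (sgn_add c d).symm⟩
  one_mem' := ⟨0, C.zero_mem, sgn_zero.symm⟩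
  inv_mem' := by
    rintro _ ⟨c, hc, rfl⟩
    exact ⟨c, hc, sgn_inv c⟩

lemma comm_sgnGroup {n : ℕ} (C : Submodule (ZMod 2) (Fin n → ZMod 2)) : Comm (sgnGroup C) := by
  rintro _ ⟨c, -, rfl⟩ _ ⟨d, -, rfl⟩
  rw [← sgn_add, ← sgn_add, add_comm]

/-- large kissing configurations which are orbits of elementary abelian groups -/
theorem lower : ∀ᶠ n : ℕ in atTop,
    ∃ G : Subgroup (EuclideanSpace ℝ (Fin n) ≃ₗᵢ[ℝ] EuclideanSpace ℝ (Fin n)), Comm G ∧
      ∃ (X : Finset (EuclideanSpace ℝ (Fin n))) (x0 : EuclideanSpace ℝ (Fin n)),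
      (∀ x, x ∈ X ↔ ∃ g ∈ G, x = g x0) ∧ (∀ x ∈ X, ‖x‖ = 1) ∧
      (∀ x ∈ X, ∀ y ∈ X, x ≠ y → inner ℝ x y ≤ 1 / 2) ∧ (2 : ℝ) ^ ((0.188 : ℝ) * n) ≤ X.card := by
  classical
  filter_upwards [eventually_gt_atTop 0] with n hn
  obtain ⟨C, hC1, hC2⟩ := exists_code n
  have hn' : (0 : ℝ) < n := by exact_mod_cast hn
  set x0 : EuclideanSpace ℝ (Fin n) := WithLp.toLp 2 (fun _ => 1 / √n) with hx0
  have hx0i : ∀ i, x0 i = 1 / √n := fun i => rfl
  set X : Finset (EuclideanSpace ℝ (Fin n)) := univ.image (fun c : C => sgn (c : Fin n → ZMod 2) x0)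
    with hX
  have hsq : (1 / √(n : ℝ)) * (1 / √n) = 1 / n := by
    rw [div_mul_div_comm, one_mul, Real.mul_self_sqrt hn'.le]
  have hsn : (1 / √(n : ℝ)) ≠ 0 := by positivity
  -- inner products
  have hin : ∀ c d : Fin n → ZMod 2, inner ℝ (sgn c x0) (sgn d x0) =
      1 - 2 * (hammingNorm (c + d) : ℝ) / n := by
    intro c d
    rw [PiLp.inner_apply]
    have e1 : ∀ i, inner ℝ (sgn c x0 i) (sgn d x0 i) = sg ((c + d) i) * (1 / n) := by
      intro i
      rw [sgn_apply, sgn_apply, hx0i, Pi.add_apply, sg_add, ← hsq]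
      simp only [RCLike.inner_apply, conj_trivial]
      ring
    simp_rw [e1]
    rw [← sum_mul]
    have e2 : ∑ i, sg ((c + d) i) = n - 2 * (hammingNorm (c + d) : ℝ) := by
      have e3 : ∀ i, sg ((c + d) i) = 1 - 2 * (if (c + d) i ≠ 0 then (1 : ℝ) else 0) := by
        intro i
        unfold sg
        by_cases h : (c + d) i = 0
        · simp [h]
        · simp only [h, if_false, ne_eq, not_false_eq_true, if_true]
          norm_num
      simp_rw [e3]
      rw [sum_sub_distrib, ← mul_sum, sum_boole]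
      simp [hammingNorm]
    rw [e2]
    field_simp
  have hinj : ∀ c ∈ C, ∀ d ∈ C, c ≠ d → inner ℝ (sgn c x0) (sgn d x0) ≤ 1 / 2 := by
    intro c hc d hd hcd
    rw [hin]
    have h1 : c + d ≠ 0 := by
      intro h
      apply hcd
      ext i
      have h2 := congrFun h i
      rw [Pi.add_apply, Pi.zero_apply] at h2
      have : ∀ a b : ZMod 2, a + b = 0 → a = b := by decide
      rw [this _ _ h2]
    have h2 := hC1 _ (C.add_mem hc hd) h1
    have h3 : (n : ℝ) ≤ 4 * hammingNorm (c + d) := by exact_mod_cast h2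
    have h4 : 1 / 2 ≤ 2 * (hammingNorm (c + d) : ℝ) / n := by
      rw [le_div_iff₀ hn']
      linarith
    linarith
  have hnorm : ∀ c : Fin n → ZMod 2, ‖sgn c x0‖ = 1 := by
    intro c
    rw [LinearIsometryEquiv.norm_map]
    have h1 : ‖x0‖ ^ 2 = 1 := by
      rw [EuclideanSpace.norm_sq_eq]
      simp only [hx0i, Real.norm_eq_abs, sq_abs]
      rw [sum_const, card_univ, Fintype.card_fin, nsmul_eq_mul, sq, hsq]
      field_simp
    have h2 : ‖x0‖ = √(‖x0‖ ^ 2) := (Real.sqrt_sq (norm_nonneg _)).symm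
    rw [h2, h1, Real.sqrt_one]
  refine ⟨sgnGroup C, comm_sgnGroup C, X, x0, ?_, ?_, ?_, ?_⟩
  · intro x
    rw [hX, mem_image]
    constructor
    · rintro ⟨c, -, rfl⟩
      exact ⟨sgn c, ⟨c, c.2, rfl⟩, rfl⟩
    · rintro ⟨_, ⟨c, hc, rfl⟩, rfl⟩
      exact ⟨⟨c, hc⟩, mem_univ _, rfl⟩
  · intro x hx
    rw [hX, mem_image] at hx
    obtain ⟨c, -, rfl⟩ := hx
    exact hnorm c
  · intro x hx y hy hxy
    rw [hX, mem_image] at hx hy
    obtain ⟨c, -, rfl⟩ := hx
    obtain ⟨d, -, rfl⟩ := hy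
    apply hinj c c.2 d d.2
    intro h
    apply hxy
    rw [h]
  · have hcard : X.card = Nat.card C := by
      rw [hX, card_image_of_injective, card_univ, Nat.card_eq_fintype_card]
      intro c d h
      by_contra hcd
      have h1 := hinj c c.2 d d.2 (fun h' => hcd (Subtype.ext h'))
      simp only at h
      rw [h, real_inner_self_eq_norm_sq, hnorm] at h1
      norm_num at h1
    rw [hcard]
    have h1 : (0 : ℝ) < (4 / 3 : ℝ) ^ n * (3 : ℝ) ^ ((n : ℝ) / 4) := by positivity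
    have h2 : (2 : ℝ) ^ n / ((4 / 3 : ℝ) ^ n * (3 : ℝ) ^ ((n : ℝ) / 4)) ≤ Nat.card C := by
      rw [div_le_iff₀ h1]
      exact hC2
    refine le_trans ?_ h2
    rw [le_div_iff₀ h1]
    -- `2 ^ 0.188 * (4/3) * 3 ^ (1/4) ≤ 2`
    have h3 : (2 : ℝ) ^ (0.188 : ℝ) * ((4 / 3) * (3 : ℝ) ^ ((1 : ℝ) / 4)) ≤ 2 := by
      have h4 : (2 : ℝ) ^ (1.584 : ℝ) ≤ 3 := by
        have : (2 : ℝ) ^ (1.584 : ℝ) = ((2 : ℝ) ^ (198 : ℕ)) ^ ((1 : ℝ) / 125) := by
          rw [← Real.rpow_natCast, ← Real.rpow_mul two_pos.le]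
          norm_num
        rw [this]
        calc ((2 : ℝ) ^ (198 : ℕ)) ^ ((1 : ℝ) / 125) ≤ ((3 : ℝ) ^ (125 : ℕ)) ^ ((1 : ℝ) / 125) := by
              apply Real.rpow_le_rpow (by positivity) (by norm_num) (by norm_num)
          _ = 3 := by
              rw [← Real.rpow_natCast, ← Real.rpow_mul (by norm_num)]
              norm_num
      have h5 : (2 : ℝ) ^ (0.188 : ℝ) * 4 ≤ 2 * (3 : ℝ) ^ ((3 : ℝ) / 4) := by
        calc (2 : ℝ) ^ (0.188 : ℝ) * 4 = 2 * (2 : ℝ) ^ (1.188 : ℝ) := by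
              rw [show (4 : ℝ) = 2 ^ (2 : ℝ) by norm_num, ← Real.rpow_add two_pos]
              nth_rw 3 [show (2 : ℝ) = 2 ^ (1 : ℝ) by norm_num]
              rw [← Real.rpow_add two_pos]
              norm_num
          _ = 2 * ((2 : ℝ) ^ (1.584 : ℝ)) ^ ((3 : ℝ) / 4) := by
              rw [← Real.rpow_mul two_pos.le]
              norm_num
          _ ≤ 2 * (3 : ℝ) ^ ((3 : ℝ) / 4) := by
              apply mul_le_mul_of_nonneg_left _ two_pos.le
              exact Real.rpow_le_rpow (by positivity) h4 (by norm_num)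
      have h6 : (3 : ℝ) ^ ((3 : ℝ) / 4) * (3 : ℝ) ^ ((1 : ℝ) / 4) = 3 := by
        rw [← Real.rpow_add (by norm_num)]
        norm_num
      have h7 : 0 < (3 : ℝ) ^ ((1 : ℝ) / 4) := by positivity
      nlinarith
    have h8 : (2 : ℝ) ^ ((0.188 : ℝ) * n) * ((4 / 3 : ℝ) ^ n * (3 : ℝ) ^ ((n : ℝ) / 4)) =
        ((2 : ℝ) ^ (0.188 : ℝ) * ((4 / 3) * (3 : ℝ) ^ ((1 : ℝ) / 4))) ^ n := by
      rw [mul_pow, mul_pow, ← Real.rpow_natCast ((2 : ℝ) ^ (0.188 : ℝ)), ← Real.rpow_mul two_pos.le,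
        ← Real.rpow_natCast ((3 : ℝ) ^ ((1 : ℝ) / 4)), ← Real.rpow_mul (by norm_num)]
      congr 3
      ring
    rw [h8]
    exact pow_le_pow_left₀ (by positivity) h3 n

end Pool.Agent.H58.AG
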