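import Pool.Agent.H58.AG.Orbit

/-!
# The numerical value for kissing configurations
-/

set_option autoImplicit false

open Finset Filter Topology

namespace Pool.Agent.H58.AG

/-- the values, up to a factor -/
def av (t : ℤ) : ℝ :=
  if t = 0 then 3200 else if t = 1 ∨ t = -1 then 901 else if t = 2 ∨ t = -2 then 100 else 0

/-- the test function -/
noncomputable def phiK : ℤ →₀ ℝ :=
  Finsupp.onFinset (Icc (-2) 2) (fun t => av t / √11883602) (by
    intro t ht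
    by_contra h
    apply ht
    rw [mem_Icc] at h
    have h0 : t ≠ 0 := by rintro rfl; exact h (by norm_num)
    have h1 : ¬ (t = 1 ∨ t = -1) := by rintro (rfl | rfl) <;> exact h (by norm_num)
    have h2 : ¬ (t = 2 ∨ t = -2) := by rintro (rfl | rfl) <;> exact h (by norm_num)
    simp [av, h0, h1, h2])

lemma phiK_apply (t : ℤ) : phiK t = av t / √11883602 := rfl

lemma phiK_sq (t : ℤ) : phiK t ^ 2 = av t ^ 2 / 11883602 := by
  rw [phiK_apply, div_pow, Real.sq_sqrt (by norm_num)]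

lemma phiK_mul (t u : ℤ) : phiK t * phiK u = av t * av u / 11883602 := by
  rw [phiK_apply, phiK_apply, div_mul_div_comm, Real.mul_self_sqrt (by norm_num)]

lemma sum_supp (F : ℤ → ℝ) (hF : ∀ t, phiK t = 0 → F t = 0) :
    ∑ t ∈ phiK.support, F t = F (-2) + F (-1) + F 0 + F 1 + F 2 := by
  have h1 : ∑ t ∈ phiK.support, F t = ∑ t ∈ Icc (-2 : ℤ) 2, F t := by
    apply sum_subset
    · exact Finsupp.support_onFinset_subset
    · intro t _ ht
      exact hF t (Finsupp.notMem_support_iff.1 ht)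
  rw [h1]
  have h2 : Icc (-2 : ℤ) 2 = {-2, -1, 0, 1, 2} := by decide
  rw [h2]
  rw [sum_insert (by decide), sum_insert (by decide), sum_insert (by decide),
    sum_insert (by decide), sum_singleton]
  ring

lemma av_vals : av (-2) = 100 ∧ av (-1) = 901 ∧ av 0 = 3200 ∧ av 1 = 901 ∧ av 2 = 100 ∧ av 3 = 0 := by
  refine ⟨?_, ?_, ?_, ?_, ?_, ?_⟩ <;> norm_num [av]

lemma phiK_norm : ∑ t ∈ phiK.support, phiK t ^ 2 = 1 := by
  obtain ⟨h1, h2, h3, h4, h5, -⟩ := av_vals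
  rw [sum_supp _ (fun t ht => by rw [ht]; ring)]
  rw [phiK_sq, phiK_sq, phiK_sq, phiK_sq, phiK_sq, h1, h2, h3, h4, h5]
  norm_num

lemma phiK_corr : 1 / 2 < ∑ t ∈ phiK.support, phiK t * phiK (t + 1) := by
  obtain ⟨h1, h2, h3, h4, h5, h6⟩ := av_vals
  rw [sum_supp _ (fun t ht => by rw [ht]; ring)]
  rw [phiK_mul, phiK_mul, phiK_mul, phiK_mul, phiK_mul]
  norm_num [h1, h2, h3, h4, h5, h6]

lemma neg_logb_le {q : ℝ} {a b : ℕ} (hb : 0 < b) (h : (1 / 2 : ℝ) ^ a ≤ q ^ b) :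
    -Real.logb 2 q ≤ (a : ℝ) / b := by
  have h1 : Real.logb 2 ((1 / 2 : ℝ) ^ a) ≤ Real.logb 2 (q ^ b) :=
    Real.logb_le_logb_of_le one_lt_two (by positivity) h
  rw [Real.logb_pow, Real.logb_pow, one_div, Real.logb_inv, Real.logb_self_eq_one one_lt_two] at h1
  rw [le_div_iff₀ (by exact_mod_cast hb)]
  linarith

lemma neg_logb_le' {q : ℝ} {a b : ℕ} (hb : 0 < b) (h : (1 / 16 : ℝ) ^ a ≤ q ^ b) :
    -Real.logb 2 q ≤ ((4 * a : ℕ) : ℝ) / b := by
  apply neg_logb_le hb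
  rw [pow_mul]
  norm_num
  norm_num at h
  exact h

lemma ent_phiK : ent phiK ≤ 0.7316 := by
  obtain ⟨h1, h2, h3, h4, h5, -⟩ := av_vals
  unfold ent
  rw [sum_supp _ (fun t ht => by rw [ht]; simp)]
  rw [phiK_sq, phiK_sq, phiK_sq, phiK_sq, phiK_sq, h1, h2, h3, h4, h5]
  have e0 : -Real.logb 2 ((3200 : ℝ) ^ 2 / 11883602) ≤ (43 : ℕ) / (200 : ℕ) :=
    neg_logb_le (by norm_num) (by norm_num)
  have e1 : -Real.logb 2 ((901 : ℝ) ^ 2 / 11883602) ≤ ((4 * 121 : ℕ) : ℝ) / (125 : ℕ) :=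
    neg_logb_le' (by norm_num) (by norm_num)
  have e2 : -Real.logb 2 ((100 : ℝ) ^ 2 / 11883602) ≤ ((4 * 128 : ℕ) : ℝ) / (50 : ℕ) :=
    neg_logb_le' (by norm_num) (by norm_num)
  push_cast at e0 e1 e2
  nlinarith

/-- the exponent of kissing configurations in one orbit of a commutative group -/
theorem kissing_orbit : ∀ᶠ n : ℕ in atTop,
    ∀ G : Subgroup (EuclideanSpace ℝ (Fin n) ≃ₗᵢ[ℝ] EuclideanSpace ℝ (Fin n)),
      Comm G → ∀ X : Finset (EuclideanSpace ℝ (Fin n)), ∀ x0 : EuclideanSpace ℝ (Fin n),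
      (∀ x ∈ X, ∃ g ∈ G, x = g x0) → (∀ x ∈ X, ‖x‖ = 1) →
      (∀ x ∈ X, ∀ y ∈ X, x ≠ y → inner ℝ x y ≤ 1 / 2) →
      (X.card : ℝ) ≤ 2 ^ ((0.366 : ℝ) * n) := by
  filter_upwards [asym (s := 1 / 2) (by norm_num) (by norm_num) phiK_norm phiK_corr
    (ε := 0.0002) (by norm_num)] with n hn G hG X x0 h1 h2 h3
  refine (hn G hG X x0 h1 h2 h3).trans ?_
  apply Real.rpow_le_rpow_of_exponent_le one_le_two
  apply mul_le_mul_of_nonneg_right _ (Nat.cast_nonneg n)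
  have := ent_phiK
  linarith

end Pool.Agent.H58.AG
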