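import Pool.Agent.H58.AG.Test
import Pool.Agent.H58.AG.Decomp

/-!
# Codes in one orbit of a commutative group
-/

set_option autoImplicit false

open Finset Filter Topology

namespace Pool.Agent.H58.AG

/-- the bound for a code in one orbit of a commutative group -/
theorem orbit_bound {n : ℕ} {G : Subgroup (EuclideanSpace ℝ (Fin n) ≃ₗᵢ[ℝ] EuclideanSpace ℝ (Fin n))}
    (hG : Comm G) {X : Finset (EuclideanSpace ℝ (Fin n))} {x0 : EuclideanSpace ℝ (Fin n)}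
    (hX0 : ∀ x ∈ X, ∃ g ∈ G, x = g x0) (hX1 : ∀ x ∈ X, ‖x‖ = 1) {s : ℝ} (hs0 : 0 ≤ s) (hs1 : s ≤ 1)
    (hX : ∀ x ∈ X, ∀ y ∈ X, x ≠ y → inner ℝ x y ≤ s)
    {φ : ℤ → ℝ} {S : Finset ℤ} (hS : ∀ t, t ∉ S → φ t = 0)
    (h1 : ∑ t ∈ S, φ t ^ 2 = 1) {c : ℝ} (hc : ∑ t ∈ S, φ t * φ (t + 1) = c) (hsc : s < c)
    {β t : ℝ} (hβ : 0 < β) (ht0 : 0 ≤ t) (ht1 : t ≤ 1)
    (hm : 4 * √((β ^ t * ∑ u ∈ S, (φ u ^ 2) ^ (1 - t)) ^ ((n + 1) / 2)) ≤ c - s) :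
    (c - s) * X.card ≤ 2 * (1 - s) * (1 / β) ^ ((n + 1) / 2) := by
  classical
  rcases X.eq_empty_or_nonempty with rfl | ⟨x1, hx1⟩
  · simp only [card_empty, Nat.cast_zero, mul_zero]
    have : 0 ≤ 1 - s := by linarith
    positivity
  obtain ⟨Φ, hΦ1, hΦ2⟩ := exists_coords hG n ⊤ (fun _ _ _ _ => Submodule.mem_top) (by
    rw [finrank_top]
    simp)
  have hx0n : ‖x0‖ = 1 := by
    obtain ⟨g, -, hg⟩ := hX0 x1 hx1
    rw [← hX1 x1 hx1, hg, LinearIsometryEquiv.norm_map]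
  have hΦn : ∀ x, ∑ j, ‖Φ x j‖ ^ 2 = ‖x‖ ^ 2 := fun x => hΦ1 x Submodule.mem_top
  have hmod : ∀ x ∈ X, ∀ j, ‖Φ x j‖ = ‖Φ x0 j‖ := by
    intro x hx j
    obtain ⟨g, hg, rfl⟩ := hX0 x hx
    exact hΦ2 g hg x0 Submodule.mem_top j
  set u : EuclideanSpace ℝ (Fin n) → Fin ((n + 1) / 2) → Circle :=
    fun x j => Circle.exp (Complex.arg (Φ x j)) with hu
  set p : Fin ((n + 1) / 2) → ℝ := fun j => ‖Φ x0 j‖ ^ 2 with hp
  have hpol : ∀ x j, Φ x j = (‖Φ x j‖ : ℂ) * (u x j : ℂ) := by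
    intro x j
    rw [hu]
    simp only [Circle.coe_exp]
    exact (Complex.norm_mul_exp_arg_mul_I _).symm
  -- the inner product
  have hinner : ∀ x y : EuclideanSpace ℝ (Fin n),
      inner ℝ x y = ∑ j, (Φ x j * (starRingEnd ℂ) (Φ y j)).re := by
    intro x y
    have h2 := norm_sub_sq_real x y
    rw [← hΦn, ← hΦn, ← hΦn, map_sub] at h2
    have h3 : ∀ j, ‖(Φ x - Φ y) j‖ ^ 2 =
        ‖Φ x j‖ ^ 2 + ‖Φ y j‖ ^ 2 - 2 * (Φ x j * (starRingEnd ℂ) (Φ y j)).re := by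
      intro j
      rw [Pi.sub_apply, ← Complex.normSq_eq_norm_sq, ← Complex.normSq_eq_norm_sq,
        ← Complex.normSq_eq_norm_sq, Complex.normSq_sub]
    simp_rw [h3] at h2
    rw [sum_sub_distrib, sum_add_distrib, ← mul_sum] at h2
    linarith
  refine torus_bound (X := X) (u := u) (p := p) (fun j => by positivity) ?_ hs0 hs1 ?_ hS h1 hc hsc
    hβ ht0 ht1 hm
  · rw [hp]
    simp only
    rw [hΦn, hx0n, one_pow]
  · intro x hx y hy hxy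
    refine le_trans (le_of_eq ?_) (hX x hx y hy hxy)
    rw [hinner]
    unfold ip
    apply sum_congr rfl
    intro j _
    rw [hpol x j, hpol y j, hmod x hx, hmod y hy]
    simp only [map_mul, Complex.conj_ofReal, rc, Circle.coe_mul, Circle.coe_inv_eq_conj, hp]
    rw [show (‖Φ x0 j‖ : ℂ) * (u x j : ℂ) * ((‖Φ x0 j‖ : ℂ) * (starRingEnd ℂ) (u y j : ℂ)) =
      ((‖Φ x0 j‖ ^ 2 : ℝ) : ℂ) * ((u x j : ℂ) * (starRingEnd ℂ) (u y j : ℂ)) by push_cast; ring]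
    rw [Complex.re_ofReal_mul]

/-- the entropy in bits of the squares -/
noncomputable def ent (φ : ℤ →₀ ℝ) : ℝ := - ∑ t ∈ φ.support, φ t ^ 2 * Real.logb 2 (φ t ^ 2)

/-- the choice of the parameter -/
lemma exists_t {φ : ℤ →₀ ℝ} (h1 : ∑ t ∈ φ.support, φ t ^ 2 = 1) {ε : ℝ} (hε : 0 < ε) :
    ∃ t : ℝ, 0 ≤ t ∧ t ≤ 1 ∧
      ((2 : ℝ) ^ (-(ent φ + ε))) ^ t * ∑ u ∈ φ.support, (φ u ^ 2) ^ (1 - t) < 1 := by
  set β : ℝ := (2 : ℝ) ^ (-(ent φ + ε)) with hβ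
  have hβ0 : 0 < β := by positivity
  set D : ℝ → ℝ := fun t => β ^ t * ∑ u ∈ φ.support, (φ u ^ 2) ^ (1 - t) with hD
  have hD0 : D 0 = 1 := by
    simp only [hD, Real.rpow_zero, one_mul, sub_zero, Real.rpow_one]
    exact h1
  have hder : HasDerivAt D (Real.log β * 1 * β ^ (0 : ℝ) * (∑ u ∈ φ.support, (φ u ^ 2) ^ (1 - (0 : ℝ))) +
      β ^ (0 : ℝ) * ∑ u ∈ φ.support, Real.log (φ u ^ 2) * (-1) * (φ u ^ 2) ^ (1 - (0 : ℝ))) 0 := by
    apply HasDerivAt.mul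
    · exact HasDerivAt.const_rpow hβ0 (hasDerivAt_id 0)
    · apply HasDerivAt.fun_sum
      intro u hu
      have hu0 : 0 < φ u ^ 2 := by
        have := Finsupp.mem_support_iff.1 hu
        positivity
      apply HasDerivAt.const_rpow hu0
      simpa using (hasDerivAt_id (0 : ℝ)).const_sub 1
  have hl2 : 0 < Real.log 2 := Real.log_pos one_lt_two
  have hneg : Real.log β * 1 * β ^ (0 : ℝ) * (∑ u ∈ φ.support, (φ u ^ 2) ^ (1 - (0 : ℝ))) +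
      β ^ (0 : ℝ) * ∑ u ∈ φ.support, Real.log (φ u ^ 2) * (-1) * (φ u ^ 2) ^ (1 - (0 : ℝ)) < 0 := by
    simp only [Real.rpow_zero, sub_zero, Real.rpow_one, h1, mul_one, one_mul]
    have e1 : Real.log β = -(ent φ + ε) * Real.log 2 := by
      rw [hβ, Real.log_rpow two_pos]
    have e2 : ∑ u ∈ φ.support, Real.log (φ u ^ 2) * (-1) * φ u ^ 2 = ent φ * Real.log 2 := by
      unfold ent
      rw [neg_mul, sum_mul, ← sum_neg_distrib]
      apply sum_congr rfl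
      intro u _
      unfold Real.logb
      field_simp
    rw [e1, e2]
    nlinarith
  rw [hasDerivAt_iff_tendsto_slope] at hder
  have h2 := hder.eventually_lt_const hneg
  have h3 : ∀ᶠ t in 𝓝[>] (0 : ℝ), slope D 0 t < 0 :=
    h2.filter_mono (nhdsWithin_mono _ (fun x hx => ne_of_gt hx))
  have h4 : ∀ᶠ t in 𝓝[>] (0 : ℝ), t ≤ 1 := by
    have : ∀ᶠ t in 𝓝 (0 : ℝ), t ≤ 1 := (eventually_lt_nhds zero_lt_one).mono fun t ht => ht.le
    exact this.filter_mono nhdsWithin_le_nhds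
  have h5 : ∀ᶠ t in 𝓝[>] (0 : ℝ), 0 < t := eventually_mem_nhdsWithin
  obtain ⟨t, ht1, ht2, ht3⟩ := (h3.and (h4.and h5)).exists
  refine ⟨t, ht3.le, ht2, ?_⟩
  rw [slope_def_field, sub_zero, hD0] at ht1
  have h6 : D t - 1 < 0 := by
    by_contra h
    push Not at h
    exact absurd ht1 (not_lt.2 (div_nonneg h ht3.le))
  have : D t < 1 := by linarith
  exact this

/-- the asymptotic form: all angles -/
theorem asym {s : ℝ} (hs0 : 0 ≤ s) (hs1 : s < 1) {φ : ℤ →₀ ℝ} (h1 : ∑ t ∈ φ.support, φ t ^ 2 = 1)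
    (hc : s < ∑ t ∈ φ.support, φ t * φ (t + 1)) {ε : ℝ} (hε : 0 < ε) :
    ∀ᶠ n : ℕ in atTop, ∀ G : Subgroup (EuclideanSpace ℝ (Fin n) ≃ₗᵢ[ℝ] EuclideanSpace ℝ (Fin n)),
      Comm G → ∀ X : Finset (EuclideanSpace ℝ (Fin n)), ∀ x0 : EuclideanSpace ℝ (Fin n),
      (∀ x ∈ X, ∃ g ∈ G, x = g x0) → (∀ x ∈ X, ‖x‖ = 1) →
      (∀ x ∈ X, ∀ y ∈ X, x ≠ y → inner ℝ x y ≤ s) →
      (X.card : ℝ) ≤ 2 ^ ((ent φ / 2 + ε) * n) := by
  obtain ⟨t, ht0, ht1, hlt⟩ := exists_t h1 hε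
  set c := ∑ t ∈ φ.support, φ t * φ (t + 1) with hcdef
  set β : ℝ := (2 : ℝ) ^ (-(ent φ + ε)) with hβ
  have hβ0 : 0 < β := by positivity
  set ρ : ℝ := β ^ t * ∑ u ∈ φ.support, (φ u ^ 2) ^ (1 - t) with hρ
  have hρ0 : 0 ≤ ρ := by positivity
  have hS : ∀ t, t ∉ φ.support → φ t = 0 := fun t ht => Finsupp.notMem_support_iff.1 ht
  have hcs : 0 < c - s := sub_pos.2 hc
  -- eventually the error is small
  have hhalf : Tendsto (fun n : ℕ => (n + 1) / 2) atTop atTop := by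
    rw [tendsto_atTop]
    intro b
    filter_upwards [eventually_ge_atTop (2 * b)] with n hn
    omega
  have e1 : ∀ᶠ n : ℕ in atTop, 4 * √(ρ ^ ((n + 1) / 2)) ≤ c - s := by
    have h2 : Tendsto (fun k : ℕ => 4 * √(ρ ^ k)) atTop (𝓝 (4 * √0)) :=
      ((Real.continuous_sqrt.tendsto _).comp (tendsto_pow_atTop_nhds_zero_of_lt_one hρ0 hlt)).const_mul 4
    rw [Real.sqrt_zero, mul_zero] at h2
    exact ((h2.comp hhalf).eventually_lt_const hcs).mono fun n hn => hn.le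
  have hent : 0 ≤ ent φ := by
    unfold ent
    rw [← sum_neg_distrib]
    apply sum_nonneg
    intro u hu
    have h2 : φ u ^ 2 ≤ 1 := by
      rw [← h1]
      exact single_le_sum (f := fun u => φ u ^ 2) (fun i _ => sq_nonneg _) hu
    have h3 : Real.logb 2 (φ u ^ 2) ≤ 0 :=
      Real.logb_nonpos one_lt_two (sq_nonneg _) h2
    nlinarith [sq_nonneg (φ u)]
  -- the constant
  have e2 : ∀ᶠ n : ℕ in atTop, 2 * (1 - s) / (c - s) * 2 ^ ((ent φ + ε) / 2) ≤ (2 : ℝ) ^ (ε / 2 * n) := by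
    have h2 : Tendsto (fun n : ℕ => (2 : ℝ) ^ (ε / 2 * n)) atTop atTop := by
      have h3 : Tendsto (fun n : ℕ => ((2 : ℝ) ^ (ε / 2)) ^ n) atTop atTop :=
        tendsto_pow_atTop_atTop_of_one_lt (Real.one_lt_rpow one_lt_two (by positivity))
      refine h3.congr fun n => ?_
      rw [← Real.rpow_natCast, ← Real.rpow_mul two_pos.le]
    exact h2.eventually_ge_atTop _
  filter_upwards [e1, e2] with n hn1 hn2 G hG X x0 hX0 hX1 hX
  have hb := orbit_bound hG hX0 hX1 hs0 hs1.le hX hS h1 hcdef.symm hc hβ0 ht0 ht1 hn1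
  have hb' : (X.card : ℝ) ≤ 2 * (1 - s) / (c - s) * (1 / β) ^ ((n + 1) / 2) := by
    rw [div_mul_eq_mul_div, le_div_iff₀ hcs]
    linarith
  have h3 : (1 / β) ^ ((n + 1) / 2) ≤ (2 : ℝ) ^ ((ent φ + ε) / 2) * 2 ^ ((ent φ + ε) / 2 * n) := by
    have h4 : 1 / β = (2 : ℝ) ^ (ent φ + ε) := by
      rw [hβ, Real.rpow_neg two_pos.le, one_div, inv_inv]
    rw [h4, ← Real.rpow_natCast, ← Real.rpow_mul two_pos.le, ← Real.rpow_add two_pos]
    apply Real.rpow_le_rpow_of_exponent_le one_le_two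
    have h5 : (((n + 1) / 2 : ℕ) : ℝ) ≤ ((n : ℝ) + 1) / 2 := by
      have := Nat.cast_div_le (α := ℝ) (m := n + 1) (n := 2)
      push_cast at this
      exact this
    nlinarith
  have hk : 0 ≤ 2 * (1 - s) / (c - s) := div_nonneg (by linarith) hcs.le
  calc (X.card : ℝ) ≤ 2 * (1 - s) / (c - s) * (1 / β) ^ ((n + 1) / 2) := hb'
    _ ≤ 2 * (1 - s) / (c - s) * ((2 : ℝ) ^ ((ent φ + ε) / 2) * 2 ^ ((ent φ + ε) / 2 * n)) :=
        mul_le_mul_of_nonneg_left h3 hk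
    _ = (2 * (1 - s) / (c - s) * 2 ^ ((ent φ + ε) / 2)) * 2 ^ ((ent φ + ε) / 2 * n) := by ring
    _ ≤ 2 ^ (ε / 2 * n) * 2 ^ ((ent φ + ε) / 2 * n) :=
        mul_le_mul_of_nonneg_right hn2 (by positivity)
    _ = 2 ^ ((ent φ / 2 + ε) * n) := by
        rw [← Real.rpow_add two_pos]
        congr 1
        ring

end Pool.Agent.H58.AG
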