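import Pool.Agent.H58.AG.Num

/-!
# Codes in `ℂᵐ` whose points have given moduli of the coordinates
-/

set_option autoImplicit false

open Finset Filter Topology

namespace Pool.Agent.H58.AG

/-- the asymptotic form for the points of a torus -/
theorem asym_torus {s : ℝ} (hs0 : 0 ≤ s) (hs1 : s < 1) {φ : ℤ →₀ ℝ}
    (h1 : ∑ t ∈ φ.support, φ t ^ 2 = 1)
    (hc : s < ∑ t ∈ φ.support, φ t * φ (t + 1)) {ε : ℝ} (hε : 0 < ε) :
    ∀ᶠ m : ℕ in atTop, ∀ X : Finset (EuclideanSpace ℂ (Fin m)),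
      ∀ u : EuclideanSpace ℂ (Fin m) → Fin m → Circle, ∀ p : Fin m → ℝ, (∀ j, 0 ≤ p j) →
      ∑ j, p j = 1 → (∀ x ∈ X, ∀ y ∈ X, x ≠ y → ip p (fun j => u x j * (u y j)⁻¹) ≤ s) →
      (X.card : ℝ) ≤ 2 ^ ((ent φ + ε) * m) := by
  obtain ⟨t, ht0, ht1, hlt⟩ := exists_t h1 (half_pos hε)
  set c := ∑ t ∈ φ.support, φ t * φ (t + 1) with hcdef
  set β : ℝ := (2 : ℝ) ^ (-(ent φ + ε / 2)) with hβ
  have hβ0 : 0 < β := by positivity
  set ρ : ℝ := β ^ t * ∑ u ∈ φ.support, (φ u ^ 2) ^ (1 - t) with hρ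
  have hρ0 : 0 ≤ ρ := by positivity
  have hS : ∀ t, t ∉ φ.support → φ t = 0 := fun t ht => Finsupp.notMem_support_iff.1 ht
  have hcs : 0 < c - s := sub_pos.2 hc
  have e1 : ∀ᶠ m : ℕ in atTop, 4 * √(ρ ^ m) ≤ c - s := by
    have h2 : Tendsto (fun k : ℕ => 4 * √(ρ ^ k)) atTop (𝓝 (4 * √0)) :=
      ((Real.continuous_sqrt.tendsto _).comp (tendsto_pow_atTop_nhds_zero_of_lt_one hρ0 hlt)).const_mul 4
    rw [Real.sqrt_zero, mul_zero] at h2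
    exact (h2.eventually_lt_const hcs).mono fun n hn => hn.le
  have e2 : ∀ᶠ m : ℕ in atTop, 2 * (1 - s) / (c - s) ≤ (2 : ℝ) ^ (ε / 2 * m) := by
    have h2 : Tendsto (fun n : ℕ => (2 : ℝ) ^ (ε / 2 * n)) atTop atTop := by
      have h3 : Tendsto (fun n : ℕ => ((2 : ℝ) ^ (ε / 2)) ^ n) atTop atTop :=
        tendsto_pow_atTop_atTop_of_one_lt (Real.one_lt_rpow one_lt_two (by positivity))
      refine h3.congr fun n => ?_
      rw [← Real.rpow_natCast, ← Real.rpow_mul two_pos.le]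
    exact h2.eventually_ge_atTop _
  filter_upwards [e1, e2] with m hm1 hm2 X u p hp hp1 hX
  have hb := torus_bound hp hp1 hs0 hs1.le hX hS h1 hcdef.symm hc hβ0 ht0 ht1 hm1
  have hb' : (X.card : ℝ) ≤ 2 * (1 - s) / (c - s) * (1 / β) ^ m := by
    rw [div_mul_eq_mul_div, le_div_iff₀ hcs]
    linarith
  have h4 : (1 / β) ^ m = (2 : ℝ) ^ ((ent φ + ε / 2) * m) := by
    rw [hβ, Real.rpow_neg two_pos.le, one_div, inv_inv, ← Real.rpow_natCast, ← Real.rpow_mul two_pos.le]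
  calc (X.card : ℝ) ≤ 2 * (1 - s) / (c - s) * (1 / β) ^ m := hb'
    _ ≤ 2 ^ (ε / 2 * m) * (1 / β) ^ m := mul_le_mul_of_nonneg_right hm2 (by positivity)
    _ = 2 ^ ((ent φ + ε) * m) := by
        rw [h4, ← Real.rpow_add two_pos]
        congr 1
        ring

/-- codes with given moduli of the coordinates -/
theorem asym_moduli {s : ℝ} (hs0 : 0 ≤ s) (hs1 : s < 1) {φ : ℤ →₀ ℝ}
    (h1 : ∑ t ∈ φ.support, φ t ^ 2 = 1)
    (hc : s < ∑ t ∈ φ.support, φ t * φ (t + 1)) {ε : ℝ} (hε : 0 < ε) :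
    ∀ᶠ m : ℕ in atTop, ∀ X : Finset (EuclideanSpace ℂ (Fin m)),
      (∀ x ∈ X, ‖x‖ = 1) → (∀ x ∈ X, ∀ y ∈ X, ∀ j, ‖x j‖ = ‖y j‖) →
      (∀ x ∈ X, ∀ y ∈ X, x ≠ y → (inner ℂ x y).re ≤ s) →
      (X.card : ℝ) ≤ 2 ^ ((ent φ + ε) * m) := by
  filter_upwards [asym_torus hs0 hs1 h1 hc hε] with m hm X hX1 hXm hX
  rcases X.eq_empty_or_nonempty with rfl | ⟨x0, hx0⟩
  · simp only [card_empty, Nat.cast_zero]
    positivity
  set u : EuclideanSpace ℂ (Fin m) → Fin m → Circle := fun x j => Circle.exp (Complex.arg (x j)) with hu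
  set p : Fin m → ℝ := fun j => ‖x0 j‖ ^ 2 with hp
  have hpol : ∀ (x : EuclideanSpace ℂ (Fin m)) j, x j = (‖x j‖ : ℂ) * (u x j : ℂ) := by
    intro x j
    rw [hu]
    simp only [Circle.coe_exp]
    exact (Complex.norm_mul_exp_arg_mul_I _).symm
  refine hm X u p (fun j => by positivity) ?_ ?_
  · rw [hp]
    simp only
    rw [← EuclideanSpace.norm_sq_eq, hX1 x0 hx0, one_pow]
  · intro x hx y hy hxy
    have h2 := hX y hy x hx (Ne.symm hxy)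
    refine le_trans (le_of_eq ?_) h2
    rw [PiLp.inner_apply, Complex.re_sum]
    unfold ip
    apply sum_congr rfl
    intro j _
    rw [RCLike.inner_apply]
    rw [hpol x j, hpol y j, hXm x hx x0 hx0 j, hXm y hy x0 hx0 j]
    simp only [map_mul, Complex.conj_ofReal, rc, Circle.coe_mul, Circle.coe_inv_eq_conj, hp]
    rw [show (‖x0 j‖ : ℂ) * (u x j : ℂ) * ((‖x0 j‖ : ℂ) * (starRingEnd ℂ) (u y j : ℂ)) =
      ((‖x0 j‖ ^ 2 : ℝ) : ℂ) * ((u x j : ℂ) * (starRingEnd ℂ) (u y j : ℂ)) by push_cast; ring]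
    rw [Complex.re_ofReal_mul]

theorem kissing_moduli : ∀ᶠ m : ℕ in atTop, ∀ X : Finset (EuclideanSpace ℂ (Fin m)),
      (∀ x ∈ X, ‖x‖ = 1) → (∀ x ∈ X, ∀ y ∈ X, ∀ j, ‖x j‖ = ‖y j‖) →
      (∀ x ∈ X, ∀ y ∈ X, x ≠ y → (inner ℂ x y).re ≤ 1 / 2) →
      (X.card : ℝ) ≤ 2 ^ ((0.366 : ℝ) * (2 * m : ℕ)) := by
  filter_upwards [asym_moduli (s := 1 / 2) (by norm_num) (by norm_num) phiK_norm phiK_corr
    (ε := 0.0004) (by norm_num)] with m hm X h1 h2 h3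
  refine (hm X h1 h2 h3).trans ?_
  apply Real.rpow_le_rpow_of_exponent_le one_le_two
  push_cast
  have := ent_phiK
  have hm0 : (0 : ℝ) ≤ m := Nat.cast_nonneg m
  nlinarith

end Pool.Agent.H58.AG
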