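import Pool.Agent.H58.AG.Perron

/-!
# The test functions: products of a function of one variable, cut off at the typical set
-/

set_option autoImplicit false

open Finset

namespace Pool.Agent.H58.AG

variable {m : ℕ}

/-- the product function -/
noncomputable def pf (φ : ℤ → ℝ) (k : Fin m → ℤ) : ℝ := ∏ j, φ (k j)

/-- the box -/
def box (m : ℕ) (S : Finset ℤ) : Finset (Fin m → ℤ) := Fintype.piFinset (fun _ => S)

open Classical in
/-- the typical set -/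
noncomputable def typ (m : ℕ) (φ : ℤ → ℝ) (S : Finset ℤ) (β : ℝ) : Finset (Fin m → ℤ) :=
  (box m S).filter (fun k => β ^ m ≤ pf φ k ^ 2)

lemma pf_nonneg {φ : ℤ → ℝ} (h : ∀ t, 0 ≤ φ t) (k : Fin m → ℤ) : 0 ≤ pf φ k :=
  prod_nonneg fun _ _ => h _

lemma pf_zero {φ : ℤ → ℝ} {S : Finset ℤ} (hS : ∀ t, t ∉ S → φ t = 0) {k : Fin m → ℤ}
    (hk : k ∉ box m S) : pf φ k = 0 := by
  unfold box at hk
  rw [Fintype.mem_piFinset] at hk
  push Not at hk
  obtain ⟨j, hj⟩ := hk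
  exact prod_eq_zero (mem_univ j) (hS _ hj)

lemma sum_pf_sq {φ : ℤ → ℝ} {S : Finset ℤ} (h1 : ∑ t ∈ S, φ t ^ 2 = 1) :
    ∑ k ∈ box m S, pf φ k ^ 2 = 1 := by
  have h2 := prod_univ_sum (fun _ : Fin m => S) (fun _ t => φ t ^ 2)
  simp only [h1, prod_const_one] at h2
  unfold box pf
  rw [h2]
  apply sum_congr rfl
  intro k _
  rw [prod_pow]

lemma sum_pf_shift {φ : ℤ → ℝ} {S : Finset ℤ} (h1 : ∑ t ∈ S, φ t ^ 2 = 1) (j : Fin m) :
    ∑ k ∈ box m S, pf φ k * pf φ (k + ev j) = ∑ t ∈ S, φ t * φ (t + 1) := by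
  have h2 := prod_univ_sum (fun _ : Fin m => S) (fun i t => φ t * φ (t + ev j i))
  have h3 : ∏ i : Fin m, ∑ t ∈ S, φ t * φ (t + ev j i) = ∑ t ∈ S, φ t * φ (t + 1) := by
    rw [prod_eq_single j]
    · simp [ev]
    · intro i _ hi
      have : ev j i = 0 := by simp [ev, hi]
      rw [this]
      simp only [add_zero]
      rw [← h1]
      apply sum_congr rfl
      intro t _
      ring
    · simp
  rw [← h3, h2]
  unfold box pf
  apply sum_congr rfl
  intro k _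
  rw [← prod_mul_distrib]
  rfl

lemma card_typ {φ : ℤ → ℝ} {S : Finset ℤ} (h1 : ∑ t ∈ S, φ t ^ 2 = 1) {β : ℝ} :
    ((typ m φ S β).card : ℝ) * β ^ m ≤ 1 := by
  classical
  rw [← sum_pf_sq (m := m) h1]
  calc ((typ m φ S β).card : ℝ) * β ^ m = ∑ k ∈ typ m φ S β, β ^ m := by
        rw [sum_const, nsmul_eq_mul]
    _ ≤ ∑ k ∈ typ m φ S β, pf φ k ^ 2 := by
        apply sum_le_sum
        intro k hk
        exact (mem_filter.1 hk).2
    _ ≤ ∑ k ∈ box m S, pf φ k ^ 2 := by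
        apply sum_le_sum_of_subset_of_nonneg (filter_subset _ _)
        intro k _ _
        positivity

/-- the mass outside of the typical set -/
lemma tail {φ : ℤ → ℝ} {S : Finset ℤ} {β t : ℝ} (hβ : 0 ≤ β) (ht0 : 0 ≤ t) (ht1 : t ≤ 1) :
    ∑ k ∈ box m S \ typ m φ S β, pf φ k ^ 2 ≤ (β ^ t * ∑ u ∈ S, (φ u ^ 2) ^ (1 - t)) ^ m := by
  classical
  have h1 : ∀ k ∈ box m S \ typ m φ S β, pf φ k ^ 2 ≤ (β ^ t) ^ m * (pf φ k ^ 2) ^ (1 - t) := by
    intro k hk
    rw [mem_sdiff] at hk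
    have h2 : pf φ k ^ 2 < β ^ m := by
      by_contra h
      push Not at h
      exact hk.2 (mem_filter.2 ⟨hk.1, h⟩)
    have h3 : pf φ k ^ 2 = (pf φ k ^ 2) ^ t * (pf φ k ^ 2) ^ (1 - t) := by
      rw [← Real.rpow_add_of_nonneg (by positivity) ht0 (by linarith)]
      simp
    have h4 : (pf φ k ^ 2) ^ t ≤ (β ^ t) ^ m := by
      calc (pf φ k ^ 2) ^ t ≤ (β ^ m) ^ t := Real.rpow_le_rpow (by positivity) h2.le ht0
        _ = (β ^ t) ^ m := by
          rw [← Real.rpow_natCast, ← Real.rpow_mul hβ, mul_comm, Real.rpow_mul hβ,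
            Real.rpow_natCast]
    calc pf φ k ^ 2 = (pf φ k ^ 2) ^ t * (pf φ k ^ 2) ^ (1 - t) := h3
      _ ≤ _ := mul_le_mul_of_nonneg_right h4 (by positivity)
  calc ∑ k ∈ box m S \ typ m φ S β, pf φ k ^ 2
      ≤ ∑ k ∈ box m S \ typ m φ S β, (β ^ t) ^ m * (pf φ k ^ 2) ^ (1 - t) := sum_le_sum h1
    _ ≤ ∑ k ∈ box m S, (β ^ t) ^ m * (pf φ k ^ 2) ^ (1 - t) := by
        apply sum_le_sum_of_subset_of_nonneg sdiff_subset
        intro k _ _
        positivity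
    _ = (β ^ t * ∑ u ∈ S, (φ u ^ 2) ^ (1 - t)) ^ m := by
        rw [← mul_sum, mul_pow]
        congr 1
        have h2 := prod_univ_sum (fun _ : Fin m => S) (fun _ t' => (φ t' ^ 2) ^ (1 - t))
        rw [prod_const, card_univ, Fintype.card_fin] at h2
        rw [h2]
        unfold box pf
        apply sum_congr rfl
        intro k _
        rw [← prod_pow, Real.finsetProd_rpow]
        intro i _
        positivity

lemma sum_shift_le {A Q : Finset (Fin m → ℤ)} {G : (Fin m → ℤ) → ℝ} (hG : ∀ k, 0 ≤ G k)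
    (e : Fin m → ℤ) (h : ∀ k ∈ A, k + e ∉ Q → G (k + e) = 0) :
    ∑ k ∈ A, G (k + e) ≤ ∑ k ∈ Q, G k := by
  classical
  have h1 : ∑ k ∈ A, G (k + e) = ∑ k ∈ A with k + e ∈ Q, G (k + e) := by
    rw [sum_filter]
    apply sum_congr rfl
    intro k hk
    split_ifs with h'
    · rfl
    · exact h k hk h'
  have h2 : ∑ k ∈ A with k + e ∈ Q, G (k + e) =
      ∑ k ∈ (A.filter (fun k => k + e ∈ Q)).image (fun k => k + e), G k := by
    rw [sum_image]
    intro a _ b _ h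
    simpa using h
  rw [h1, h2]
  apply sum_le_sum_of_subset_of_nonneg
  · intro k hk
    rw [mem_image] at hk
    obtain ⟨l, hl, rfl⟩ := hk
    exact (mem_filter.1 hl).2
  · intro k _ _
    exact hG k

/-- the correlation inside of the typical set -/
lemma corr_typ {φ : ℤ → ℝ} {S : Finset ℤ} (hS : ∀ t, t ∉ S → φ t = 0)
    (h1 : ∑ t ∈ S, φ t ^ 2 = 1) {β P : ℝ}
    (hP : ∑ k ∈ box m S \ typ m φ S β, pf φ k ^ 2 ≤ P) (j : Fin m) :
    (∑ t ∈ S, φ t * φ (t + 1)) - 2 * √P ≤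
      ∑ k ∈ typ m φ S β, if k + ev j ∈ typ m φ S β then pf φ k * pf φ (k + ev j) else 0 := by
  classical
  set B := typ m φ S β with hB
  set Q := box m S with hQ
  have hBQ : B ⊆ Q := filter_subset _ _
  have hsq : ∀ k : Fin m → ℤ, 0 ≤ pf φ k ^ 2 := fun k => sq_nonneg _
  have hsum1 : ∑ k ∈ Q, pf φ k ^ 2 = 1 := sum_pf_sq h1
  -- shifted sums
  have hsh1 : ∑ k ∈ Q \ B, pf φ (k + ev j) ^ 2 ≤ 1 := by
    rw [← hsum1]
    apply sum_shift_le hsq
    intro k _ hk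
    rw [pf_zero hS hk]
    ring
  have hsh2 : ∑ k ∈ B with k + ev j ∉ B, pf φ (k + ev j) ^ 2 ≤ P := by
    refine le_trans ?_ hP
    apply sum_shift_le hsq
    intro k hk hk2
    rw [mem_filter] at hk
    have : k + ev j ∉ Q := by
      intro h
      exact hk2 (mem_sdiff.2 ⟨h, hk.2⟩)
    rw [pf_zero hS this]
    ring
  -- Cauchy-Schwarz
  have hcs1 : ∑ k ∈ Q \ B, pf φ k * pf φ (k + ev j) ≤ √P := by
    have h2 := sum_mul_sq_le_sq_mul_sq (Q \ B) (fun k => pf φ k) (fun k => pf φ (k + ev j))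
    apply Real.le_sqrt_of_sq_le
    refine h2.trans ?_
    calc (∑ k ∈ Q \ B, pf φ k ^ 2) * ∑ k ∈ Q \ B, pf φ (k + ev j) ^ 2
        ≤ P * 1 := mul_le_mul hP hsh1 (sum_nonneg fun k _ => hsq _) ((sum_nonneg fun k _ => hsq k).trans hP)
      _ = P := mul_one P
  have hcs2 : ∑ k ∈ B with k + ev j ∉ B, pf φ k * pf φ (k + ev j) ≤ √P := by
    have h2 := sum_mul_sq_le_sq_mul_sq (B.filter (fun k => k + ev j ∉ B)) (fun k => pf φ k)
      (fun k => pf φ (k + ev j))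
    apply Real.le_sqrt_of_sq_le
    refine h2.trans ?_
    have h3 : ∑ k ∈ B with k + ev j ∉ B, pf φ k ^ 2 ≤ 1 := by
      rw [← hsum1]
      exact sum_le_sum_of_subset_of_nonneg ((filter_subset _ _).trans hBQ) (fun k _ _ => hsq k)
    calc (∑ k ∈ B with k + ev j ∉ B, pf φ k ^ 2) * ∑ k ∈ B with k + ev j ∉ B, pf φ (k + ev j) ^ 2
        ≤ 1 * P := mul_le_mul h3 hsh2 (sum_nonneg fun k _ => hsq _) zero_le_one
      _ = P := one_mul P
  have htot : ∑ k ∈ Q, pf φ k * pf φ (k + ev j) = ∑ t ∈ S, φ t * φ (t + 1) := sum_pf_shift h1 j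
  have hsplit : ∑ k ∈ Q, pf φ k * pf φ (k + ev j) =
      ∑ k ∈ Q \ B, pf φ k * pf φ (k + ev j) + (∑ k ∈ B with k + ev j ∈ B, pf φ k * pf φ (k + ev j) +
        ∑ k ∈ B with k + ev j ∉ B, pf φ k * pf φ (k + ev j)) := by
    rw [sum_filter_add_sum_filter_not, sum_sdiff hBQ]
  rw [← sum_filter]
  linarith

/-- the bound for codes on a torus -/
theorem torus_bound {α : Type*} {X : Finset α} {u : α → Fin m → Circle} {p : Fin m → ℝ}
    (hp : ∀ j, 0 ≤ p j) (hp1 : ∑ j, p j = 1) {s : ℝ} (hs0 : 0 ≤ s) (hs1 : s ≤ 1)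
    (hX : ∀ x ∈ X, ∀ y ∈ X, x ≠ y → ip p (fun j => u x j * (u y j)⁻¹) ≤ s)
    {φ : ℤ → ℝ} {S : Finset ℤ} (hS : ∀ t, t ∉ S → φ t = 0)
    (h1 : ∑ t ∈ S, φ t ^ 2 = 1) {c : ℝ} (hc : ∑ t ∈ S, φ t * φ (t + 1) = c) (hsc : s < c)
    {β t : ℝ} (hβ : 0 < β) (ht0 : 0 ≤ t) (ht1 : t ≤ 1)
    (hm : 4 * √((β ^ t * ∑ u ∈ S, (φ u ^ 2) ^ (1 - t)) ^ m) ≤ c - s) :
    (c - s) * X.card ≤ 2 * (1 - s) * (1 / β) ^ m := by
  classical
  have htail := tail (m := m) (φ := φ) (S := S) hβ.le ht0 ht1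
  set P := (β ^ t * ∑ u ∈ S, (φ u ^ 2) ^ (1 - t)) ^ m with hPdef
  set R := c - 2 * √P with hR
  have hRs : (c + s) / 2 ≤ R := by
    rw [hR]
    linarith
  have hR0 : 0 ≤ R := by linarith
  have hcorr : ∀ j : Fin m, R ≤
      ∑ k ∈ typ m φ S β, if k + ev j ∈ typ m φ S β then pf φ k * pf φ (k + ev j) else 0 := by
    intro j
    rw [hR, ← hc]
    exact corr_typ hS h1 htail j
  have hle1 : ∑ k ∈ typ m φ S β, pf φ k ^ 2 ≤ 1 := by
    rw [← sum_pf_sq (m := m) h1]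
    apply sum_le_sum_of_subset_of_nonneg (filter_subset _ _)
    intro k _ _
    positivity
  have hray : R * ∑ k ∈ typ m φ S β, pf φ k ^ 2 ≤
      ∑ j, p j * ∑ k ∈ typ m φ S β, if k + ev j ∈ typ m φ S β then
        pf φ k * pf φ (k + ev j) else 0 := by
    calc R * ∑ k ∈ typ m φ S β, pf φ k ^ 2 ≤ R * 1 := mul_le_mul_of_nonneg_left hle1 hR0
      _ = ∑ j, p j * R := by rw [← sum_mul, hp1, mul_one, one_mul]
      _ ≤ _ := by
        apply sum_le_sum
        intro j _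
        exact mul_le_mul_of_nonneg_left (hcorr j) (hp j)
  have hne : ∃ k ∈ typ m φ S β, pf φ k ≠ 0 := by
    by_contra h
    push Not at h
    have hz : ∀ j : Fin m, ∑ k ∈ typ m φ S β, (if k + ev j ∈ typ m φ S β then
        pf φ k * pf φ (k + ev j) else 0) = 0 := by
      intro j
      apply sum_eq_zero
      intro k hk
      rw [h k hk]
      simp
    have hm0 : (univ : Finset (Fin m)).Nonempty := by
      rw [univ_nonempty_iff, ← not_isEmpty_iff]
      intro hem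
      rw [univ_eq_empty_iff.2 hem, sum_empty] at hp1
      exact zero_ne_one hp1
    obtain ⟨j, -⟩ := hm0
    have := hcorr j
    rw [hz j] at this
    linarith
  obtain ⟨f, hf0, hfB, hfne, hfe⟩ := perron hp hne hR0 hray
  have hfin := card_le hp hp1 hX hf0 hfB hfne hfe (by linarith) hs1
  have hcard := card_typ (m := m) (φ := φ) (S := S) h1 (β := β)
  have hcard' : ((typ m φ S β).card : ℝ) ≤ (1 / β) ^ m := by
    rw [div_pow, one_pow, le_div_iff₀ (by positivity)]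
    exact hcard
  have h4 : (c - s) / 2 * X.card ≤ (1 - s) * (1 / β) ^ m := by
    calc (c - s) / 2 * X.card ≤ (R - s) * X.card := by
          apply mul_le_mul_of_nonneg_right _ (Nat.cast_nonneg _)
          linarith
      _ ≤ (1 - s) * (typ m φ S β).card := hfin
      _ ≤ _ := mul_le_mul_of_nonneg_left hcard' (by linarith)
  linarith

end Pool.Agent.H58.AG
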